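import Mathlib
import Pool.Agent.TH705.LB.Wit

set_option autoImplicit false

/-!
A 1-limited automaton with `O(m)` states which guesses an `m × m` bit matrix in the cells of the first
block of the input and compares it with all the later blocks.

Input alphabet: bits, `u` (end of a row), `s` (end of a block), `q` (start of the last block).
-/

namespace Pool.Agent.U593.UL

open Pool.Agent.H630R2.LA
open Pool.Agent.TH705.LB (Ltr)

/-- Work symbols: a letter, a visited letter, a guessed bit, the end of the first block. -/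
inductive Wk : Type
  | raw (l : Ltr) : Wk
  | vis (l : Ltr) : Wk
  | g (x : Bool) : Wk
  | mark : Wk

/-- Contexts: is this the last block, was the guessed matrix found among the earlier blocks. -/
abbrev Ctx : Type := Bool × Bool

/-- Modes. -/
inductive Tag : Type
  | N (i : Option (Ctx × Bool)) (full : Bool)
  | Y (f : Bool)
  | Z
  | Lu (i : Option (Ctx × Bool))
  | Lb (c : Ctx) (b : Bool)
  | Lz
  | Cz
  | R1 (c : Ctx) (b : Bool)
  | R0 (c : Ctx) (b : Bool)
  | R2 (c : Ctx) (b : Bool)
  | R3 (c : Ctx) (r : Bool)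
  | R5 (c : Ctx) (r : Bool)
  | R6 (c : Ctx) (r : Bool)
  | R7 (c : Ctx) (r : Bool)
  | E (b : Bool)
  deriving DecidableEq, Fintype

theorem card_Tag : Nat.card Tag ≤ 98 := by
  rw [Nat.card_eq_fintype_card]
  decide

/-- The mode after a malformed block. -/
def bad : Option (Ctx × Bool) → Tag
  | some ((false, f), _) => .Y f
  | _ => .Z

/-- The moves at the first visit of a cell with a letter: `i` tells in which block the cell is, `full`
that the block already has `m` rows, `k` is the number of bits of the current row. -/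
def front (m : ℕ) (i : Option (Ctx × Bool)) (full : Bool) (k : ℕ) : Ltr → List (Tag × ℕ × Wk × Bool)
  | .bit b =>
    if full = true ∨ k = m then [(bad i, 0, .vis (.bit b), true)]
    else match i with
      | none => [(.N none false, k + 1, .g false, true), (.N none false, k + 1, .g true, true)]
      | some (c, false) => [(.N (some (c, false)) false, k + 1, .vis (.bit b), true)]
      | some (c, true) => [(.Lb c b, k, .vis (.bit b), false)]
  | .u =>
    if full = true ∨ k ≠ m then [(bad i, 0, .vis .u, true)]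
    else [(.Lu i, 1, .vis .u, false)]
  | .s => match i with
      | none =>
        if full = true then [(.N (some ((false, false), true)) false, 0, .mark, true)]
        else [(.Z, 0, .vis .s, true)]
      | some ((true, _), _) => [(.Z, 0, .vis .s, true)]
      | some ((false, f), st) =>
        [(.N (some ((false, f || (full && st)), true)) false, 0, .vis .s, true)]
  | .q => match i with
      | some ((false, f), st) =>
        [(.N (some ((true, f || (full && st)), true)) false, 0, .vis .q, true)]
      | _ => [(.Z, 0, .vis .q, true)]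

/-- The moves at the right end-marker. -/
def atEnd (i : Option (Ctx × Bool)) (full : Bool) : List (Tag × ℕ × Wk × Bool) :=
  match i, full with
  | some ((true, f), true), true => [(.E f, 0, .mark, true)]
  | some ((true, _), false), true => []
  | _, _ => [(.Lz, 0, .mark, false)]

/-- The move at the beginning of a block which is taken for the current block; the rows are counted
up to `m`. -/
def enter (m : ℕ) (c : Ctx) (r : Bool) (j : ℕ) (w : Wk) : Tag × ℕ × Wk × Bool :=
  if j = m then (.R7 c r, 0, w, true) else (.R6 c r, j, w, true)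

/-- The choice of a cell in the chosen row. -/
def pick (c : Ctx) (b : Bool) (k : ℕ) (y : Bool) : Tag × ℕ × Wk × Bool :=
  if k = 0 then (.R3 c (y == b), 0, .g y, true) else (.R2 c b, k - 1, .g y, true)

/-- The moves. -/
def tr (m : ℕ) : Tag → ℕ → Sym Wk → List (Tag × ℕ × Wk × Bool)
  | .N i full, k, .sym (.raw l) => front m i full k l
  | .N i full, k, .sym (.vis l) => [(.N i full, k, .vis l, true)]
  | .N i full, k, .sym (.g x) => [(.N i full, k, .g x, true)]
  | .N i full, k, .sym .mark => [(.N i full, k, .mark, true)]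
  | .N i full, _, .rm => atEnd i full
  | .Y f, _, .sym (.raw .s) => [(.N (some ((false, f), true)) false, 0, .vis .s, true)]
  | .Y f, _, .sym (.raw .q) => [(.N (some ((true, f), true)) false, 0, .vis .q, true)]
  | .Y f, _, .sym (.raw .u) => [(.Y f, 0, .vis .u, true)]
  | .Y f, _, .sym (.raw (.bit b)) => [(.Y f, 0, .vis (.bit b), true)]
  | .Y _, _, .rm => [(.Lz, 0, .mark, false)]
  | .Z, _, .sym (.raw l) => [(.Z, 0, .vis l, true)]
  | .Z, _, .rm => [(.Lz, 0, .mark, false)]
  | .Lu i, c, .sym (.vis .u) => [(.Lu i, c + 1, .vis .u, false)]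
  | .Lu i, c, .sym (.vis (.bit b)) => [(.Lu i, c, .vis (.bit b), false)]
  | .Lu i, c, .sym (.g x) => [(.Lu i, c, .g x, false)]
  | .Lu i, c, .sym (.vis .s) => [(.N i (decide (c = m)), 0, .vis .s, true)]
  | .Lu i, c, .sym (.vis .q) => [(.N i (decide (c = m)), 0, .vis .q, true)]
  | .Lu i, c, .sym .mark => [(.N i (decide (c = m)), 0, .mark, true)]
  | .Lu i, c, .lm => [(.N i (decide (c = m)), 0, .mark, true)]
  | .Lb c b, k, .lm => [(.R1 c b, k, .mark, true)]
  | .Lb c b, k, .sym (.vis l) => [(.Lb c b, k, .vis l, false)]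
  | .Lb c b, k, .sym (.g x) => [(.Lb c b, k, .g x, false)]
  | .Lb c b, k, .sym .mark => [(.Lb c b, k, .mark, false)]
  | .Lz, _, .lm => [(.Cz, 0, .mark, true)]
  | .Lz, _, .sym (.vis l) => [(.Lz, 0, .vis l, false)]
  | .Lz, _, .sym (.g false) => [(.Lz, 0, .g false, false)]
  | .Lz, _, .sym .mark => [(.Lz, 0, .mark, false)]
  | .Cz, _, .rm => [(.E false, 0, .mark, true)]
  | .Cz, _, .sym (.vis l) => [(.Cz, 0, .vis l, true)]
  | .Cz, _, .sym (.g x) => [(.Cz, 0, .g x, true)]
  | .Cz, _, .sym .mark => [(.Cz, 0, .mark, true)]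
  | .R1 c b, k, .sym (.g y) => [(.R0 c b, k, .g y, true), pick c b k y]
  | .R0 c b, k, .sym (.g y) => [(.R0 c b, k, .g y, true)]
  | .R0 c b, k, .sym (.vis .u) => [(.R1 c b, k, .vis .u, true)]
  | .R2 c b, k, .sym (.g y) => [pick c b k y]
  | .R3 c r, j, .sym (.g y) => [(.R3 c r, j, .g y, true)]
  | .R3 c r, j, .sym (.vis .u) => [(.R3 c r, j + 1, .vis .u, true)]
  | .R3 c r, j, .sym .mark => [(.R5 c r, j, .mark, true), enter m c r j .mark]
  | .R5 c r, j, .sym (.vis .s) => [(.R5 c r, j, .vis .s, true), enter m c r j (.vis .s)]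
  | .R5 c r, j, .sym (.vis .q) => [(.R5 c r, j, .vis .q, true), enter m c r j (.vis .q)]
  | .R5 c r, j, .sym (.vis .u) => [(.R5 c r, j, .vis .u, true)]
  | .R5 c r, j, .sym (.vis (.bit b)) => [(.R5 c r, j, .vis (.bit b), true)]
  | .R6 c r, j, .sym (.vis (.bit b)) => [(.R6 c r, j, .vis (.bit b), true)]
  | .R6 c r, j, .sym (.vis .u) => [enter m c r (j + 1) (.vis .u)]
  | .R7 c r, k, .sym (.vis (.bit b)) => [(.R7 c r, k + 1, .vis (.bit b), true)]
  | .R7 c r, k, .sym (.raw l) => front m (some (c, r)) false k l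
  | .R7 _ _, _, .rm => [(.Lz, 0, .mark, false)]
  | _, _, _ => []

theorem front_length (m : ℕ) (i : Option (Ctx × Bool)) (full : Bool) (k : ℕ) (l : Ltr) :
    (front m i full k l).length ≤ 2 := by
  rcases i with _ | ⟨⟨_ | _, f⟩, _ | _⟩ <;> rcases l with b | _ | _ | _ <;>
    simp only [front] <;> first | (split_ifs <;> simp) | simp

theorem tr_length (m : ℕ) (t : Tag) (k : ℕ) (σ : Sym Wk) : (tr m t k σ).length ≤ 2 := by
  unfold tr
  split <;> first
    | exact front_length ..
    | (unfold atEnd; split <;> simp)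
    | simp

/-- Encoding of the work symbols. -/
def wkCode : Wk → Fin 13
  | .raw (.bit false) => 0
  | .raw (.bit true) => 1
  | .raw .u => 2
  | .raw .s => 3
  | .raw .q => 4
  | .vis (.bit false) => 5
  | .vis (.bit true) => 6
  | .vis .u => 7
  | .vis .s => 8
  | .vis .q => 9
  | .g false => 10
  | .g true => 11
  | .mark => 12

theorem wkCode_inj : Function.Injective wkCode := by
  rintro (((_ | _) | _ | _ | _) | ((_ | _) | _ | _ | _) | (_ | _) | _)
    (((_ | _) | _ | _ | _) | ((_ | _) | _ | _ | _) | (_ | _) | _) h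
  all_goals first
    | rfl
    | exact absurd h (by decide)

instance : Finite Wk := Finite.of_injective _ wkCode_inj

theorem card_Wk : Nat.card Wk ≤ 13 := by
  have := Nat.card_le_card_of_injective _ wkCode_inj
  simpa using this

/-- The machine for `m × m` matrices. -/
def witU (m : ℕ) : LimAut Ltr where
  Q := Tag × Fin (m + 1)
  W := Wk
  finQ := inferInstance
  finW := inferInstance
  inp := Wk.raw
  inp_inj := by
    intro a b h
    cases h
    rfl
  δ := fun p σ => {x | (x.1.1, x.1.2.val, x.2.1, x.2.2) ∈ tr m p.1 p.2.val σ}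
  q0 := (.N none false, 0)
  F := {p | p.1 = .E true}

/-- The rejecting states. -/
def rejU (m : ℕ) : Set (witU m).Q := {p | p.1 = .E false}

theorem ncard_list_le {α : Type} (l : List α) : {x | x ∈ l}.ncard ≤ l.length := by
  classical
  have : {x | x ∈ l} = (l.toFinset : Set α) := by
    ext x
    simp
  rw [this, Set.ncard_coe_finset]
  exact List.toFinset_card_le l

theorem numTrans_witU (m : ℕ) : (witU m).numTrans ≤ 2940 * (m + 1) := by
  classical
  have hQ : Finite (witU m).Q := (witU m).finQ
  have hW : Finite (witU m).W := (witU m).finW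
  have hS : Finite (Sym (witU m).W) := finite_Sym _
  let B : (witU m).Q × Sym (witU m).W →
      Set ((witU m).Q × Sym (witU m).W × (witU m).Q × (witU m).W × Bool) :=
    fun p => (fun x : (witU m).Q × (witU m).W × Bool => (p.1, p.2, x)) ''
      {x : (witU m).Q × (witU m).W × Bool | x ∈ (witU m).δ p.1 p.2}
  have hfib : ∀ p, (B p).ncard ≤ 2 := by
    intro p
    refine (Set.ncard_image_le (Set.toFinite _)).trans ?_
    refine le_trans ?_ (tr_length m p.1.1 p.1.2.val p.2)
    refine le_trans ?_ (ncard_list_le _)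
    refine Set.ncard_le_ncard_of_injOn
      (fun x : (witU m).Q × (witU m).W × Bool => (x.1.1, x.1.2.val, x.2.1, x.2.2)) ?_ ?_ ?_
    · intro x hx
      exact hx
    · rintro ⟨⟨a, b⟩, c, d⟩ _ ⟨⟨a', b'⟩, c', d'⟩ _ h
      simp only [Prod.mk.injEq] at h
      have hb : b = b' := Fin.ext h.2.1
      have hcd : (c, d) = (c', d') := by
        first
          | exact h.2.2
          | exact Prod.ext h.2.2.1 h.2.2.2
      exact Prod.ext (Prod.ext h.1 hb) hcd
    · exact List.finite_toSet _
  have hF : Fintype ((witU m).Q × Sym (witU m).W) := Fintype.ofFinite _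
  have h1 : {t : (witU m).Q × Sym (witU m).W × (witU m).Q × (witU m).W × Bool |
      t.2.2 ∈ (witU m).δ t.1 t.2.1} ⊆ ⋃ p ∈ (Finset.univ : Finset _), B p := by
    rintro ⟨p, σ, x⟩ hx
    simp only [Set.mem_iUnion]
    exact ⟨(p, σ), Finset.mem_univ _, x, hx, rfl⟩
  unfold LimAut.numTrans
  refine le_trans (Set.ncard_le_ncard h1 (Set.toFinite _)) ?_
  refine le_trans (Finset.set_ncard_biUnion_le _ _) ?_
  refine le_trans (Finset.sum_le_sum (fun p _ => hfib p)) ?_
  rw [Finset.sum_const, smul_eq_mul, Finset.card_univ, ← Nat.card_eq_fintype_card, Nat.card_prod,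
    card_Sym]
  have h4 : Nat.card (witU m).Q = Nat.card Tag * (m + 1) := by
    show Nat.card (Tag × Fin (m + 1)) = _
    rw [Nat.card_prod]
    simp
  rw [h4]
  have h5 := card_Tag
  have h6 : Nat.card (witU m).W ≤ 13 := card_Wk
  calc Nat.card Tag * (m + 1) * (Nat.card (witU m).W + 2) * 2
      ≤ 98 * (m + 1) * (13 + 2) * 2 := by gcongr
    _ = 2940 * (m + 1) := by ring

theorem card_tag_states (m : ℕ) (t : Tag) :
    {p : (witU m).Q | p.1 = t}.ncard ≤ m + 1 := by
  have : {p : (witU m).Q | p.1 = t}.ncard ≤ (Set.univ : Set (Fin (m + 1))).ncard := by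
    refine Set.ncard_le_ncard_of_injOn (fun p : (witU m).Q => p.2) ?_ ?_ (Set.toFinite _)
    · intro x _
      trivial
    · rintro ⟨a, b⟩ ha ⟨a', b'⟩ ha' h
      have h1 : a = t := ha
      have h2 : a' = t := ha'
      have h3 : b = b' := h
      rw [h1, h2, h3]
  simpa [Set.ncard_univ] using this

theorem size_witU (m : ℕ) : (witU m).size + (rejU m).ncard ≤ 15000 * (m + 1) := by
  have h1 := numTrans_witU m
  have h2 : Nat.card (witU m).Q = Nat.card Tag * (m + 1) := by
    show Nat.card (Tag × Fin (m + 1)) = _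
    rw [Nat.card_prod]
    simp
  have h3 : Nat.card (witU m).W ≤ 13 := card_Wk
  have h4 : (witU m).F.ncard ≤ m + 1 := card_tag_states m _
  have h5 : (rejU m).ncard ≤ m + 1 := card_tag_states m _
  have h6 := Pool.Agent.TH705.LB.card_Ltr
  have h7 := card_Tag
  unfold LimAut.size
  rw [h2]
  have h8 : Nat.card Tag * (m + 1) ≤ 98 * (m + 1) := Nat.mul_le_mul_right _ h7
  omega

end Pool.Agent.U593.UL
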