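import Mathlib
import Pool.Agent.U593.UL.Mach

set_option autoImplicit false

/-! # Steps, forced steps and unique computations of the machine -/

namespace Pool.Agent.U593.UL

open Pool.Agent.H630R2.LA Relation
open Pool.Agent.TH705.LB (Ltr)

variable {m : ℕ} {strict : Prop} {n : ℕ}

/-- The end of a computation which answers. -/
def End (n : ℕ) (c : Cfg (witU m)) : Prop := c.pos = n + 2 ∧ ∃ b, c.state.1 = Tag.E b

/-- An answer can be reached. -/
def Alive (strict : Prop) (n : ℕ) (c : Cfg (witU m)) : Prop :=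
  ∃ e, ReflTransGen (Step strict n) c e ∧ End n e

/-- A step which is the only one that leads to an answer. -/
def U1 (strict : Prop) (n : ℕ) (c c' : Cfg (witU m)) : Prop :=
  Step strict n c c' ∧ ∀ c'', Step strict n c c'' → Alive strict n c'' → c'' = c'

/-- A forced path. -/
def Det (strict : Prop) (n : ℕ) : Cfg (witU m) → Cfg (witU m) → Prop := ReflTransGen (U1 strict n)

/-- The rest `l` of a computation after `c`. -/
def Comp (strict : Prop) (n : ℕ) (c : Cfg (witU m)) (l : List (Cfg (witU m))) : Prop :=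
  (c :: l).IsChain (Step strict n) ∧ ∃ e, (c :: l).getLast? = some e ∧ End n e

/-- At most one computation from `c` on. -/
def Uniq (strict : Prop) (n : ℕ) (c : Cfg (witU m)) : Prop :=
  ∀ l l', Comp strict n c l → Comp strict n c l' → l = l'

theorem not_step_of_end {c c' : Cfg (witU m)} (h : End n c) : ¬ Step strict n c c' := by
  rintro ⟨h1, _⟩
  have := h.1
  omega

theorem Comp.alive {c : Cfg (witU m)} {l : List (Cfg (witU m))} (h : Comp strict n c l) :
    Alive strict n c := by
  induction l generalizing c with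
  | nil =>
    obtain ⟨_, e, h2, h3⟩ := h
    simp only [List.getLast?_singleton, Option.some.injEq] at h2
    subst h2
    exact ⟨c, ReflTransGen.refl, h3⟩
  | cons d l ih =>
    obtain ⟨h1, e, h2, h3⟩ := h
    rw [List.isChain_cons_cons] at h1
    rw [List.getLast?_cons_cons] at h2
    obtain ⟨e', h4, h5⟩ := ih ⟨h1.2, e, h2, h3⟩
    exact ⟨e', ReflTransGen.head h1.1 h4, h5⟩

theorem uniq_of {c : Cfg (witU m)}
    (h : ∀ c' c'', Step strict n c c' → Step strict n c c'' → Alive strict n c' →
      Alive strict n c'' → c' = c'')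
    (h' : ∀ c', Step strict n c c' → Alive strict n c' → Uniq strict n c') : Uniq strict n c := by
  intro l l' hl hl'
  have hend : ∀ {l : List (Cfg (witU m))}, Comp strict n c l → l = [] → End n c := by
    rintro l ⟨_, e, h2, h3⟩ rfl
    simp only [List.getLast?_singleton, Option.some.injEq] at h2
    subst h2
    exact h3
  rcases l with _ | ⟨d, l⟩
  · rcases l' with _ | ⟨d', l'⟩
    · rfl
    · exact absurd (List.isChain_cons_cons.1 hl'.1).1 (not_step_of_end (hend hl rfl))
  · rcases l' with _ | ⟨d', l'⟩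
    · exact absurd (List.isChain_cons_cons.1 hl.1).1 (not_step_of_end (hend hl' rfl))
    · obtain ⟨h1, e, h2, h3⟩ := hl
      obtain ⟨h1', e', h2', h3'⟩ := hl'
      rw [List.isChain_cons_cons] at h1 h1'
      rw [List.getLast?_cons_cons] at h2 h2'
      have hd : Comp strict n d l := ⟨h1.2, e, h2, h3⟩
      have hd' : Comp strict n d' l' := ⟨h1'.2, e', h2', h3'⟩
      have := h d d' h1.1 h1'.1 hd.alive hd'.alive
      subst this
      rw [h' d h1.1 hd.alive l l' hd hd']

theorem uniq_end {c : Cfg (witU m)} (h : End n c) : Uniq strict n c :=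
  uniq_of (fun _ _ h1 _ _ _ => absurd h1 (not_step_of_end h))
    (fun _ h1 _ => absurd h1 (not_step_of_end h))

theorem uniq_dead {c : Cfg (witU m)} (h : ¬ Alive strict n c) : Uniq strict n c :=
  fun _ _ h1 _ => absurd h1.alive h

theorem uniq_u1 {c c' : Cfg (witU m)} (h : U1 strict n c c') (h' : Uniq strict n c') :
    Uniq strict n c := by
  refine uniq_of ?_ ?_
  · intro a b ha hb ha' hb'
    rw [h.2 a ha ha', h.2 b hb hb']
  · intro a ha ha'
    rw [h.2 a ha ha']
    exact h'

theorem uniq_det {c c' : Cfg (witU m)} (h : Det strict n c c') (h' : Uniq strict n c') :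
    Uniq strict n c := by
  induction h using ReflTransGen.head_induction_on with
  | refl => exact h'
  | head h1 _ ih => exact uniq_u1 h1 ih

theorem Det.steps {c c' : Cfg (witU m)} (h : Det strict n c c') :
    ReflTransGen (Step strict n) c c' := by
  induction h using ReflTransGen.head_induction_on with
  | refl => exact ReflTransGen.refl
  | head h1 _ ih => exact ReflTransGen.head h1.1 ih

theorem alive_of_steps {c c' : Cfg (witU m)} (h : ReflTransGen (Step strict n) c c')
    (h' : Alive strict n c') : Alive strict n c := by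
  obtain ⟨e, h1, h2⟩ := h'
  exact ⟨e, h.trans h1, h2⟩

/-- An alive configuration is an end or has an alive successor. -/
theorem Alive.next {c : Cfg (witU m)} (h : Alive strict n c) (hc : c.pos ≤ n + 1) :
    ∃ c', Step strict n c c' ∧ Alive strict n c' := by
  obtain ⟨e, h1, h2⟩ := h
  rcases ReflTransGen.cases_head h1 with rfl | ⟨c', h3, h4⟩
  · have := h2.1
    omega
  · exact ⟨c', h3, e, h4, h2⟩

theorem alive_u1 {c c' : Cfg (witU m)} (h : U1 strict n c c') :
    Alive strict n c ↔ Alive strict n c' := by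
  constructor
  · intro hc
    obtain ⟨c'', h1, h2⟩ := hc.next h.1.1
    rw [← h.2 c'' h1 h2]
    exact h2
  · exact fun h' => alive_of_steps (ReflTransGen.single h.1) h'

theorem alive_det {c c' : Cfg (witU m)} (h : Det strict n c c') :
    Alive strict n c ↔ Alive strict n c' := by
  induction h using ReflTransGen.head_induction_on with
  | refl => exact Iff.rfl
  | head h1 _ ih => exact (alive_u1 h1).trans ih

/-- The scanned symbol. -/
def rd (c : Cfg (witU m)) : Sym Wk := c.tape c.pos

open Classical in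
/-- The configuration after a move. -/
noncomputable def nx (c : Cfg (witU m)) (e : Tag × ℕ × Wk × Bool) : Cfg (witU m) where
  state := (e.1, Fin.ofNat (m + 1) e.2.1)
  pos := if e.2.2.2 = true then c.pos + 1 else c.pos - 1
  tape := if c.pos ∈ c.seen then c.tape else
    Function.update c.tape c.pos ((rd c).rewrite e.2.2.1)
  seen := insert c.pos c.seen

theorem fin_ofNat {k : ℕ} (h : k ≤ m) : (Fin.ofNat (m + 1) k).val = k := by
  simp only [Fin.ofNat]
  exact Nat.mod_eq_of_lt (by omega)

theorem step_inv {c c' : Cfg (witU m)} (h : Step strict n c c') :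
    ∃ e ∈ tr m c.state.1 c.state.2.val (rd c), e.2.1 ≤ m ∧ c' = nx c e := by
  classical
  obtain ⟨_, q, b, d, hδ, _, hq, ht1, ht2, hs, hr, hl⟩ := h
  refine ⟨(q.1, q.2.val, b, d), hδ, by have := q.2.isLt; simp only; omega, ?_⟩
  obtain ⟨st, ps, tp, sn⟩ := c'
  simp only at hq ht1 ht2 hs hr hl
  subst hq
  unfold nx
  have e1 : st = (st.1, Fin.ofNat (m + 1) st.2.val) := by
    refine Prod.ext rfl ?_
    apply Fin.ext
    rw [fin_ofNat]
    have := st.2.isLt
    omega
  congr 1
  · cases d
    · simp only [Bool.false_eq_true, if_false]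
      have := hl rfl
      omega
    · simp only [if_true]
      exact hr rfl
  · by_cases hps : c.pos ∈ c.seen
    · rw [if_pos hps]
      exact ht1 hps
    · rw [if_neg hps]
      exact ht2 hps

theorem step_mk {c : Cfg (witU m)} {e : Tag × ℕ × Wk × Bool}
    (he : e ∈ tr m c.state.1 c.state.2.val (rd c)) (hk : e.2.1 ≤ m)
    (hp : c.pos ≤ n + 1) (hl : e.2.2.2 = false → 1 ≤ c.pos)
    (hw : c.pos ∈ c.seen → (rd c).rewrite e.2.2.1 = rd c) :
    Step strict n c (nx c e) := by
  classical
  refine ⟨hp, (e.1, Fin.ofNat (m + 1) e.2.1), e.2.2.1, e.2.2.2, ?_, fun _ => hw, rfl, ?_, ?_, rfl,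
    ?_, ?_⟩
  · show (e.1, (Fin.ofNat (m + 1) e.2.1).val, e.2.2.1, e.2.2.2) ∈ tr m _ _ _
    rw [fin_ofNat hk]
    exact he
  · intro h
    show (if c.pos ∈ c.seen then _ else _) = _
    rw [if_pos h]
  · intro h
    show (if c.pos ∈ c.seen then _ else _) = _
    rw [if_neg h]
    rfl
  · intro h
    show (if e.2.2.2 = true then _ else _) = _
    rw [if_pos h]
  · intro h
    show (if e.2.2.2 = true then _ else _) + 1 = _
    have := hl h
    rw [h, if_neg (by simp)]
    omega

/-- The tape with the given content. -/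
def tapeOf (T : List Wk) : ℕ → Sym Wk
  | 0 => .lm
  | i + 1 => match T[i]? with
    | some a => .sym a
    | none => .rm

/-- The configuration with the mode `t`, the number `k`, the content `L.reverse ++ R ++ v`, where the
cells of `L` and `R` have been visited, at the position `p`. -/
structure At (n p : ℕ) (t : Tag) (k : ℕ) (L R : List Wk) (v : List Ltr) (c : Cfg (witU m)) :
    Prop where
  st : c.state.1 = t
  nu : c.state.2.val = k
  ps : c.pos = p
  tp : c.tape = tapeOf (L.reverse ++ R ++ v.map Wk.raw)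
  sn : ∀ i, 1 ≤ i → i ≤ n → (i ∈ c.seen ↔ i ≤ L.length + R.length)
  ln : L.length + R.length + v.length = n

/-- On the first cell of `R` or on the first new cell. -/
def AtR (n : ℕ) (t : Tag) (k : ℕ) (L R : List Wk) (v : List Ltr) (c : Cfg (witU m)) : Prop :=
  At n (L.length + 1) t k L R v c

/-- On the first cell of `L` or on the left end-marker. -/
def AtL (n : ℕ) (t : Tag) (k : ℕ) (L R : List Wk) (v : List Ltr) (c : Cfg (witU m)) : Prop :=
  At n L.length t k L R v c

section reads

variable {t : Tag} {k : ℕ} {L R : List Wk} {v : List Ltr} {a : Wk} {l : Ltr} {c : Cfg (witU m)}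

theorem getR (L R S : List Wk) (a : Wk) : (L.reverse ++ (a :: R) ++ S)[L.length]? = some a := by
  rw [List.append_assoc, List.getElem?_append_right (by simp)]
  simp

theorem AtR.read (h : AtR n t k L (a :: R) v c) : rd c = .sym a := by
  unfold rd
  rw [h.ps, h.tp]
  simp only [tapeOf, getR]

theorem AtR.read_new (h : AtR n t k L [] (l :: v) c) : rd c = .sym (.raw l) := by
  unfold rd
  rw [h.ps, h.tp]
  have := getR L [] (v.map Wk.raw) (.raw l)
  simp only [List.map_cons, List.append_nil, List.append_assoc, List.cons_append,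
    List.nil_append] at this ⊢
  simp only [tapeOf, this]

theorem AtR.read_end (h : AtR n t k L [] [] c) : rd c = .rm := by
  unfold rd
  rw [h.ps, h.tp]
  simp [tapeOf]

theorem AtL.read (h : AtL n t k (a :: L) R v c) : rd c = .sym a := by
  unfold rd
  rw [h.ps, h.tp]
  have := getR L R (v.map Wk.raw) a
  simp only [List.reverse_cons, List.append_assoc, List.cons_append, List.nil_append,
    List.length_cons] at this ⊢
  simp only [tapeOf, this]

theorem AtL.read_lm (h : AtL n t k [] R v c) : rd c = .lm := by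
  unfold rd
  rw [h.ps, h.tp]
  rfl

end reads

section moves

variable {t : Tag} {k : ℕ} {L R : List Wk} {v : List Ltr} {a : Wk} {l : Ltr} {c : Cfg (witU m)}
  {t' : Tag} {k' : ℕ} {w : Wk}

theorem nx_tape_seen {e : Tag × ℕ × Wk × Bool} (h : c.pos ∈ c.seen) :
    (nx c e).tape = c.tape := by
  simp only [nx, if_pos h]

theorem nx_tape_same {e : Tag × ℕ × Wk × Bool} (h : ∀ b, (rd c).rewrite b = rd c) :
    (nx c e).tape = c.tape := by
  by_cases h' : c.pos ∈ c.seen
  · exact nx_tape_seen h'
  · simp only [nx, if_neg h', h]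
    exact Function.update_eq_self _ _

theorem nx_tape_new {e : Tag × ℕ × Wk × Bool} (h : c.pos ∉ c.seen) :
    (nx c e).tape = Function.update c.tape c.pos ((rd c).rewrite e.2.2.1) := by
  simp only [nx, if_neg h]

theorem AtR.seen (h : AtR n t k L (a :: R) v c) : c.pos ∈ c.seen := by
  have h1 := h.ps
  have h2 := h.ln
  simp only [List.length_cons] at h2
  rw [h.sn _ (by omega) (by omega), h1]
  simp only [List.length_cons]
  omega

theorem AtL.seen (h : AtL n t k (a :: L) R v c) : c.pos ∈ c.seen := by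
  have h1 := h.ps
  have h2 := h.ln
  simp only [List.length_cons] at h1 h2
  rw [h.sn _ (by omega) (by omega), h1]
  simp only [List.length_cons]
  omega

theorem AtR.unseen (h : AtR n t k L [] (l :: v) c) : c.pos ∉ c.seen := by
  have h1 := h.ps
  have h2 := h.ln
  simp only [List.length_cons, List.length_nil] at h2
  rw [h.sn _ (by omega) (by omega), h1]
  simp only [List.length_nil]
  omega

theorem seen_insert {S : Set ℕ} {V p : ℕ} (h : ∀ i, 1 ≤ i → i ≤ n → (i ∈ S ↔ i ≤ V))
    (hp : p ≤ V ∨ p = 0 ∨ n < p) : ∀ i, 1 ≤ i → i ≤ n → (i ∈ insert p S ↔ i ≤ V) := by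
  intro i h1 h2
  rw [Set.mem_insert_iff, h i h1 h2]
  omega

theorem nxR (h : AtR n t k L (a :: R) v c) (hk : k' ≤ m) :
    AtR n t' k' (a :: L) R v (nx c (t', k', w, true)) := by
  refine ⟨rfl, fin_ofNat hk, ?_, ?_, ?_, ?_⟩
  · show c.pos + 1 = _
    rw [h.ps]
    rfl
  · rw [nx_tape_seen h.seen, h.tp]
    simp
  · show ∀ i, 1 ≤ i → i ≤ n → (i ∈ insert c.pos c.seen ↔ _)
    refine seen_insert (fun i h1 h2 => ?_) ?_
    · rw [h.sn i h1 h2]
      simp only [List.length_cons]
      omega
    · left
      rw [h.ps]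
      simp only [List.length_cons]
      omega
  · have := h.ln
    simp only [List.length_cons] at this ⊢
    omega

theorem nxL (h : AtL n t k (a :: L) R v c) (hk : k' ≤ m) :
    AtL n t' k' L (a :: R) v (nx c (t', k', w, false)) := by
  refine ⟨rfl, fin_ofNat hk, ?_, ?_, ?_, ?_⟩
  · show c.pos - 1 = _
    rw [h.ps]
    rfl
  · rw [nx_tape_seen h.seen, h.tp]
    simp
  · show ∀ i, 1 ≤ i → i ≤ n → (i ∈ insert c.pos c.seen ↔ _)
    refine seen_insert (fun i h1 h2 => ?_) ?_
    · rw [h.sn i h1 h2]
      simp only [List.length_cons]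
      omega
    · left
      rw [h.ps]
      simp only [List.length_cons]
      omega
  · have := h.ln
    simp only [List.length_cons] at this ⊢
    omega

theorem nxT (h : AtL n t k (a :: L) R v c) (hk : k' ≤ m) :
    AtR n t' k' (a :: L) R v (nx c (t', k', w, true)) := by
  refine ⟨rfl, fin_ofNat hk, ?_, ?_, ?_, h.ln⟩
  · show c.pos + 1 = _
    rw [h.ps]
  · rw [nx_tape_seen h.seen, h.tp]
  · show ∀ i, 1 ≤ i → i ≤ n → (i ∈ insert c.pos c.seen ↔ _)
    refine seen_insert h.sn ?_
    left
    rw [h.ps]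
    simp only [List.length_cons]
    omega

theorem nxlm (h : AtL n t k [] R v c) (hk : k' ≤ m) :
    AtR n t' k' [] R v (nx c (t', k', w, true)) := by
  refine ⟨rfl, fin_ofNat hk, ?_, ?_, ?_, h.ln⟩
  · show c.pos + 1 = _
    rw [h.ps]
  · rw [nx_tape_same, h.tp]
    intro b
    rw [h.read_lm]
    rfl
  · show ∀ i, 1 ≤ i → i ≤ n → (i ∈ insert c.pos c.seen ↔ _)
    refine seen_insert h.sn ?_
    right
    left
    rw [h.ps]
    rfl

theorem update_tape (L : List Wk) (w : Wk) (l : Ltr) (v : List Ltr) :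
    Function.update (tapeOf (L.reverse ++ [] ++ (l :: v).map Wk.raw)) (L.length + 1) (.sym w) =
      tapeOf (L.reverse ++ [w] ++ v.map Wk.raw) := by
  funext i
  rcases i with _ | i
  · rw [Function.update_of_ne (by omega)]
    rfl
  · by_cases hi : i = L.length
    · subst hi
      rw [Function.update_self]
      simp only [tapeOf, getR]
    · rw [Function.update_of_ne (by omega)]
      simp only [tapeOf]
      congr 1
      rcases Nat.lt_or_ge i L.length with h1 | h1
      · rw [List.append_assoc, List.append_assoc, List.getElem?_append_left (by simpa using h1),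
          List.getElem?_append_left (by simpa using h1)]
      · obtain ⟨j, rfl⟩ : ∃ j, i = L.length + (j + 1) := ⟨i - L.length - 1, by omega⟩
        have e1 : ∀ (a : Wk) (S : List Wk),
            (L.reverse ++ (a :: S))[L.length + (j + 1)]? = S[j]? := by
          intro a S
          rw [List.getElem?_append_right (by simp), List.length_reverse, Nat.add_sub_cancel_left]
          rfl
        have e2 : L.reverse ++ [] ++ (l :: v).map Wk.raw =
            L.reverse ++ (Wk.raw l :: v.map Wk.raw) := by simp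
        have e3 : L.reverse ++ [w] ++ v.map Wk.raw = L.reverse ++ (w :: v.map Wk.raw) := by simp
        rw [e2, e3, e1, e1]

theorem nxF_tape (h : AtR n t k L [] (l :: v) c) {e : Tag × ℕ × Wk × Bool} (he : e.2.2.1 = w) :
    (nx c e).tape = tapeOf (L.reverse ++ [w] ++ v.map Wk.raw) := by
  rw [nx_tape_new h.unseen, h.read_new, h.ps, h.tp, he]
  exact update_tape L w l v

theorem nxF_seen (h : AtR n t k L [] (l :: v) c) :
    ∀ i, 1 ≤ i → i ≤ n → (i ∈ insert c.pos c.seen ↔ i ≤ L.length + 1) := by
  intro i h1 h2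
  rw [Set.mem_insert_iff, h.sn i h1 h2, h.ps]
  simp only [List.length_nil]
  omega

theorem nxF (h : AtR n t k L [] (l :: v) c) (hk : k' ≤ m) :
    AtR n t' k' (w :: L) [] v (nx c (t', k', w, true)) := by
  refine ⟨rfl, fin_ofNat hk, ?_, ?_, ?_, ?_⟩
  · show c.pos + 1 = _
    rw [h.ps]
    rfl
  · rw [nxF_tape h rfl]
    simp
  · intro i h1 h2
    show i ∈ insert c.pos c.seen ↔ _
    rw [nxF_seen h i h1 h2]
    exact Iff.rfl
  · have := h.ln
    simp only [List.length_cons, List.length_nil] at this ⊢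
    omega

theorem nxFL (h : AtR n t k L [] (l :: v) c) (hk : k' ≤ m) :
    AtL n t' k' L [w] v (nx c (t', k', w, false)) := by
  refine ⟨rfl, fin_ofNat hk, ?_, ?_, ?_, ?_⟩
  · show c.pos - 1 = _
    rw [h.ps]
    rfl
  · rw [nxF_tape h rfl]
  · intro i h1 h2
    show i ∈ insert c.pos c.seen ↔ _
    rw [nxF_seen h i h1 h2]
    exact Iff.rfl
  · have := h.ln
    simp only [List.length_cons, List.length_nil] at this ⊢
    omega

theorem nxrm (h : AtR n t k L [] [] c) (hk : k' ≤ m) :
    AtL n t' k' L [] [] (nx c (t', k', w, false)) := by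
  have hln := h.ln
  simp only [List.length_nil] at hln
  refine ⟨rfl, fin_ofNat hk, ?_, ?_, ?_, h.ln⟩
  · show c.pos - 1 = _
    rw [h.ps]
    rfl
  · rw [nx_tape_same, h.tp]
    intro b
    rw [h.read_end]
    rfl
  · show ∀ i, 1 ≤ i → i ≤ n → (i ∈ insert c.pos c.seen ↔ _)
    refine seen_insert h.sn ?_
    right
    right
    rw [h.ps]
    omega

theorem nxend {b : Bool} (h : AtR n t k L [] [] c) :
    End n (nx c (.E b, k', w, true)) := by
  have hln := h.ln
  simp only [List.length_nil] at hln
  refine ⟨?_, b, rfl⟩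
  show c.pos + 1 = _
  rw [h.ps]
  omega

end moves

section det

variable {t : Tag} {k : ℕ} {L R : List Wk} {v : List Ltr} {a : Wk} {l : Ltr} {c : Cfg (witU m)}
  {t' : Tag} {k' : ℕ} {w : Wk}

theorem At.pos_le {p : ℕ} (h : At n p t k L R v c) (hp : p ≤ L.length + 1)
    : c.pos ≤ n + 1 := by
  have := h.ps
  have := h.ln
  omega

/-- A step to the only alive one of the successors. -/
theorem u1_of {e : Tag × ℕ × Wk × Bool} (h : Step strict n c (nx c e))
    (h' : ∀ e' ∈ tr m c.state.1 c.state.2.val (rd c), e'.2.1 ≤ m → e' ≠ e →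
      ¬ Alive strict n (nx c e')) : U1 strict n c (nx c e) := by
  refine ⟨h, ?_⟩
  intro c'' h1 h2
  obtain ⟨e', h3, h4, rfl⟩ := step_inv h1
  by_cases hne : e' = e
  · rw [hne]
  · exact absurd h2 (h' e' h3 h4 hne)

theorem sR (h : AtR n t k L (a :: R) v c) (he : (t', k', a, true) ∈ tr m t k (.sym a))
    (hk : k' ≤ m) : Step strict n c (nx c (t', k', a, true)) := by
  refine step_mk ?_ hk (h.pos_le le_rfl) (fun h => absurd h (by simp)) ?_
  · rw [h.st, h.nu, h.read]
    exact he
  · intro _
    rw [h.read]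
    rfl

theorem detR (h : AtR n t k L (a :: R) v c) (he : tr m t k (.sym a) = [(t', k', a, true)])
    (hk : k' ≤ m) : ∃ c', Det strict n c c' ∧ AtR n t' k' (a :: L) R v c' := by
  refine ⟨_, ReflTransGen.single (u1_of (sR h (by rw [he]; exact List.mem_singleton.2 rfl) hk) ?_),
    nxR h hk⟩
  intro e' h1 _ h2
  rw [h.st, h.nu, h.read, he] at h1
  exact absurd (List.mem_singleton.1 h1) h2

theorem detL (h : AtL n t k (a :: L) R v c) (he : tr m t k (.sym a) = [(t', k', a, false)])
    (hk : k' ≤ m) : ∃ c', Det strict n c c' ∧ AtL n t' k' L (a :: R) v c' := by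
  refine ⟨_, ReflTransGen.single (u1_of (e := (t', k', a, false)) (step_mk ?_ hk
    (At.pos_le h (by omega)) ?_ ?_) ?_), nxL h hk⟩
  · rw [h.st, h.nu, h.read, he]
    exact List.mem_singleton.2 rfl
  · intro _
    rw [h.ps]
    simp
  · intro _
    rw [h.read]
    rfl
  · intro e' h1 _ h2
    rw [h.st, h.nu, h.read, he] at h1
    exact absurd (List.mem_singleton.1 h1) h2

theorem detT (h : AtL n t k (a :: L) R v c) (he : tr m t k (.sym a) = [(t', k', a, true)])
    (hk : k' ≤ m) : ∃ c', Det strict n c c' ∧ AtR n t' k' (a :: L) R v c' := by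
  refine ⟨_, ReflTransGen.single (u1_of (e := (t', k', a, true)) (step_mk ?_ hk
    (At.pos_le h (by omega)) (fun h => absurd h (by simp)) ?_) ?_), nxT h hk⟩
  · rw [h.st, h.nu, h.read, he]
    exact List.mem_singleton.2 rfl
  · intro _
    rw [h.read]
    rfl
  · intro e' h1 _ h2
    rw [h.st, h.nu, h.read, he] at h1
    exact absurd (List.mem_singleton.1 h1) h2

theorem detlm (h : AtL n t k [] R v c) (he : tr m t k .lm = [(t', k', w, true)])
    (hk : k' ≤ m) : ∃ c', Det strict n c c' ∧ AtR n t' k' [] R v c' := by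
  refine ⟨_, ReflTransGen.single (u1_of (e := (t', k', w, true)) (step_mk ?_ hk
    (At.pos_le h (by omega)) (fun h => absurd h (by simp)) ?_) ?_), nxlm h hk⟩
  · rw [h.st, h.nu, h.read_lm, he]
    exact List.mem_singleton.2 rfl
  · intro _
    rw [h.read_lm]
    rfl
  · intro e' h1 _ h2
    rw [h.st, h.nu, h.read_lm, he] at h1
    exact absurd (List.mem_singleton.1 h1) h2

theorem sF (h : AtR n t k L [] (l :: v) c) {d : Bool}
    (he : (t', k', w, d) ∈ tr m t k (.sym (.raw l)))
    (hk : k' ≤ m) : Step strict n c (nx c (t', k', w, d)) := by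
  refine step_mk ?_ hk (h.pos_le le_rfl) ?_ (fun h' => absurd h' h.unseen)
  · rw [h.st, h.nu, h.read_new]
    exact he
  · intro _
    rw [h.ps]
    omega

theorem detF (h : AtR n t k L [] (l :: v) c)
    (he : tr m t k (.sym (.raw l)) = [(t', k', w, true)]) (hk : k' ≤ m) :
    ∃ c', Det strict n c c' ∧ AtR n t' k' (w :: L) [] v c' := by
  refine ⟨_, ReflTransGen.single (u1_of (sF h (by rw [he]; exact List.mem_singleton.2 rfl) hk) ?_),
    nxF h hk⟩
  intro e' h1 _ h2
  rw [h.st, h.nu, h.read_new, he] at h1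
  exact absurd (List.mem_singleton.1 h1) h2

theorem detFL (h : AtR n t k L [] (l :: v) c)
    (he : tr m t k (.sym (.raw l)) = [(t', k', w, false)]) (hk : k' ≤ m) :
    ∃ c', Det strict n c c' ∧ AtL n t' k' L [w] v c' := by
  refine ⟨_, ReflTransGen.single (u1_of (sF h (by rw [he]; exact List.mem_singleton.2 rfl) hk) ?_),
    nxFL h hk⟩
  intro e' h1 _ h2
  rw [h.st, h.nu, h.read_new, he] at h1
  exact absurd (List.mem_singleton.1 h1) h2

theorem detrm (h : AtR n t k L [] [] c) (he : tr m t k .rm = [(t', k', w, false)])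
    (hk : k' ≤ m) : ∃ c', Det strict n c c' ∧ AtL n t' k' L [] [] c' := by
  refine ⟨_, ReflTransGen.single (u1_of (e := (t', k', w, false)) (step_mk ?_ hk
    (At.pos_le h le_rfl) ?_ ?_) ?_), nxrm h hk⟩
  · rw [h.st, h.nu, h.read_end, he]
    exact List.mem_singleton.2 rfl
  · intro _
    rw [h.ps]
    omega
  · intro _
    rw [h.read_end]
    rfl
  · intro e' h1 _ h2
    rw [h.st, h.nu, h.read_end, he] at h1
    exact absurd (List.mem_singleton.1 h1) h2

theorem detend {b : Bool} (h : AtR n t k L [] [] c) (he : tr m t k .rm = [(.E b, 0, w, true)]) :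
    ∃ c', Det strict n c c' ∧ End n c' ∧ c'.state.1 = .E b := by
  refine ⟨_, ReflTransGen.single (u1_of (e := (.E b, 0, w, true)) (step_mk ?_ (Nat.zero_le _)
    (At.pos_le h le_rfl) (fun h => absurd h (by simp)) ?_) ?_), nxend h, rfl⟩
  · rw [h.st, h.nu, h.read_end, he]
    exact List.mem_singleton.2 rfl
  · intro _
    rw [h.read_end]
    rfl
  · intro e' h1 _ h2
    rw [h.st, h.nu, h.read_end, he] at h1
    exact absurd (List.mem_singleton.1 h1) h2

/-- The alive successors in an excursion to the right. -/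
theorem AtR.alive_next (h : AtR n t k L (a :: R) v c) (hal : Alive strict n c) :
    ∃ e ∈ tr m t k (.sym a), e.2.1 ≤ m ∧ Alive strict n (nx c e) := by
  obtain ⟨c', h1, h2⟩ := hal.next (h.pos_le le_rfl)
  obtain ⟨e, h3, h4, rfl⟩ := step_inv h1
  rw [h.st, h.nu, h.read] at h3
  exact ⟨e, h3, h4, h2⟩

theorem AtR.alive_new (h : AtR n t k L [] (l :: v) c) (hal : Alive strict n c) :
    ∃ e ∈ tr m t k (.sym (.raw l)), e.2.1 ≤ m ∧ Alive strict n (nx c e) := by
  obtain ⟨c', h1, h2⟩ := hal.next (h.pos_le le_rfl)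
  obtain ⟨e, h3, h4, rfl⟩ := step_inv h1
  rw [h.st, h.nu, h.read_new] at h3
  exact ⟨e, h3, h4, h2⟩

theorem AtR.alive_rm (h : AtR n t k L [] [] c) (hal : Alive strict n c) :
    ∃ e ∈ tr m t k .rm, e.2.1 ≤ m ∧ Alive strict n (nx c e) := by
  obtain ⟨c', h1, h2⟩ := hal.next (h.pos_le le_rfl)
  obtain ⟨e, h3, h4, rfl⟩ := step_inv h1
  rw [h.st, h.nu, h.read_end] at h3
  exact ⟨e, h3, h4, h2⟩

theorem AtL.alive_next (h : AtL n t k (a :: L) R v c) (hal : Alive strict n c) :
    ∃ e ∈ tr m t k (.sym a), e.2.1 ≤ m ∧ Alive strict n (nx c e) := by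
  obtain ⟨c', h1, h2⟩ := hal.next (At.pos_le h (by omega))
  obtain ⟨e, h3, h4, rfl⟩ := step_inv h1
  rw [h.st, h.nu, h.read] at h3
  exact ⟨e, h3, h4, h2⟩

end det

end Pool.Agent.U593.UL
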