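import Mathlib
import Pool.Agent.U593.UL.Gen

set_option autoImplicit false

/-! # The excursions of the machine -/

namespace Pool.Agent.U593.UL

open Pool.Agent.H630R2.LA Relation
open Pool.Agent.TH705.LB (Ltr)

variable {m : ℕ} {strict : Prop} {n : ℕ}

/-- The number of rows of the last block (the last letter comes first). -/
def nu : List Ltr → ℕ
  | [] => 0
  | .u :: t => nu t + 1
  | .bit _ :: t => nu t
  | _ :: _ => 0

/-- The number of bits of the last row. -/
def kb : List Ltr → ℕ
  | .bit _ :: t => kb t + 1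
  | _ => 0

/-- Is there a block end. -/
def hb : List Ltr → Bool
  | [] => false
  | .s :: _ => true
  | .q :: _ => true
  | _ :: t => hb t

theorem hb_snoc_bit (D : List Ltr) (b : Bool) : hb (D ++ [.bit b]) = hb D := by
  induction D with
  | nil => rfl
  | cons a D ih => rcases a with _ | _ | _ | _ <;> simp [hb, ih]

theorem hb_snoc_u (D : List Ltr) : hb (D ++ [.u]) = hb D := by
  induction D with
  | nil => rfl
  | cons a D ih => rcases a with _ | _ | _ | _ <;> simp [hb, ih]

theorem hb_snoc_s (D : List Ltr) : hb (D ++ [.s]) = true := by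
  induction D with
  | nil => rfl
  | cons a D ih => rcases a with _ | _ | _ | _ <;> simp [hb, ih]

theorem hb_snoc_q (D : List Ltr) : hb (D ++ [.q]) = true := by
  induction D with
  | nil => rfl
  | cons a D ih => rcases a with _ | _ | _ | _ <;> simp [hb, ih]

theorem nu_snoc_bit (D : List Ltr) (b : Bool) : nu (D ++ [.bit b]) = nu D := by
  induction D with
  | nil => rfl
  | cons a D ih => rcases a with _ | _ | _ | _ <;> simp [nu, ih]

theorem nu_snoc_s (D : List Ltr) : nu (D ++ [.s]) = nu D := by
  induction D with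
  | nil => rfl
  | cons a D ih => rcases a with _ | _ | _ | _ <;> simp [nu, ih]

theorem nu_snoc_q (D : List Ltr) : nu (D ++ [.q]) = nu D := by
  induction D with
  | nil => rfl
  | cons a D ih => rcases a with _ | _ | _ | _ <;> simp [nu, ih]

theorem nu_snoc_u (D : List Ltr) : nu (D ++ [.u]) = nu D + if hb D = true then 0 else 1 := by
  induction D with
  | nil => rfl
  | cons a D ih =>
    by_cases h : hb D = true <;> rcases a with _ | _ | _ | _ <;> simp [nu, hb, ih, h]

/-- All letters are bits. -/
def allb (D : List Ltr) : Prop := ∀ a ∈ D, ∃ b, a = Ltr.bit b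

theorem allb_iff (D : List Ltr) : allb D ↔ (hb D = false ∧ nu D = 0) := by
  induction D with
  | nil => simp [allb, hb, nu]
  | cons a D ih =>
    rcases a with _ | _ | _ | _
    · simp only [allb, List.mem_cons, forall_eq_or_imp, hb, nu] at ih ⊢
      rw [ih]
      simp
    · simp [allb, nu]
    · simp [allb, hb]
    · simp [allb, hb]

theorem kb_allb {D : List Ltr} (h : allb D) : kb D = D.length := by
  induction D with
  | nil => rfl
  | cons a D ih =>
    obtain ⟨b, rfl⟩ := h a (List.mem_cons_self ..)
    simp only [kb, List.length_cons]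
    rw [ih fun x hx => h x (List.mem_cons_of_mem _ hx)]

theorem kb_snoc_of {D : List Ltr} (h : ¬ allb D) (a : Ltr) : kb (D ++ [a]) = kb D := by
  induction D with
  | nil => exact absurd (by simp [allb]) h
  | cons x D ih =>
    rcases x with b | _ | _ | _
    · simp only [List.cons_append, kb]
      rw [ih]
      intro h'
      apply h
      intro y hy
      rcases List.mem_cons.1 hy with rfl | hy
      · exact ⟨b, rfl⟩
      · exact h' y hy
    · rfl
    · rfl
    · rfl

theorem kb_snoc_u (D : List Ltr) : kb (D ++ [.u]) = kb D := by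
  induction D with
  | nil => rfl
  | cons x D ih =>
    rcases x with b | _ | _ | _
    · simp only [List.cons_append, kb, ih]
    · rfl
    · rfl
    · rfl

theorem kb_snoc_s (D : List Ltr) : kb (D ++ [.s]) = kb D := by
  induction D with
  | nil => rfl
  | cons x D ih =>
    rcases x with b | _ | _ | _
    · simp only [List.cons_append, kb, ih]
    · rfl
    · rfl
    · rfl

theorem kb_snoc_q (D : List Ltr) : kb (D ++ [.q]) = kb D := by
  induction D with
  | nil => rfl
  | cons x D ih =>
    rcases x with b | _ | _ | _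
    · simp only [List.cons_append, kb, ih]
    · rfl
    · rfl
    · rfl

section alive

variable {k j : ℕ} {L : List Wk} {v : List Ltr} {c : Cfg (witU m)} {x : Ctx} {r b : Bool}

theorem alive7 (C : List Ltr) : ∀ {k : ℕ} {L : List Wk} {c : Cfg (witU m)},
    AtR n (.R7 x r) k L (C.map Wk.vis) v c → Alive strict n c → allb C := by
  induction C with
  | nil => intro _ _ _ _ _ a ha; exact absurd ha (by simp)
  | cons a C ih =>
    intro k L c h hal
    obtain ⟨e, he, hk, hal'⟩ := h.alive_next hal
    rcases a with b | _ | _ | _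
    · have he' : e = (.R7 x r, k + 1, .vis (.bit b), true) := List.mem_singleton.1 he
      subst he'
      intro y hy
      rcases List.mem_cons.1 hy with rfl | hy
      · exact ⟨b, rfl⟩
      · exact ih (nxR h hk) hal' y hy
    · exact absurd he List.not_mem_nil
    · exact absurd he List.not_mem_nil
    · exact absurd he List.not_mem_nil

theorem aliveEnter_of {C : List Ltr} {a : Wk}
    (ih : ∀ {j : ℕ} {L : List Wk} {c : Cfg (witU m)},
      AtR n (.R6 x r) j L (C.map Wk.vis) v c → Alive strict n c →
      hb C.reverse = false ∧ nu C.reverse + j = m) {t : Tag}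
    (h : AtR n t k L (a :: C.map Wk.vis) v c) (hk : (enter m x r j a).2.1 ≤ m)
    (hal : Alive strict n (nx c (enter m x r j a))) :
    hb C.reverse = false ∧ nu C.reverse + j = m := by
  unfold enter at hal hk
  split_ifs at hal hk with hj
  · have h1 := alive7 C (nxR h hk) hal
    have h2 : allb C.reverse := fun y hy => h1 y (List.mem_reverse.1 hy)
    obtain ⟨h3, h4⟩ := (allb_iff _).1 h2
    exact ⟨h3, by omega⟩
  · exact ih (nxR h hk) hal

theorem alive6 (C : List Ltr) : ∀ {j : ℕ} {L : List Wk} {c : Cfg (witU m)},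
    AtR n (.R6 x r) j L (C.map Wk.vis) v c → Alive strict n c →
      hb C.reverse = false ∧ nu C.reverse + j = m := by
  induction C with
  | nil =>
    intro j L c h hal
    exfalso
    rcases v with _ | ⟨l, v⟩
    · obtain ⟨e, he, _⟩ := h.alive_rm hal
      exact absurd he List.not_mem_nil
    · obtain ⟨e, he, _⟩ := h.alive_new hal
      exact absurd he List.not_mem_nil
  | cons a C ih =>
    intro j L c h hal
    obtain ⟨e, he, hk, hal'⟩ := h.alive_next hal
    rw [List.reverse_cons]
    rcases a with b | _ | _ | _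
    · have he' : e = (.R6 x r, j, .vis (.bit b), true) := List.mem_singleton.1 he
      subst he'
      rw [hb_snoc_bit, nu_snoc_bit]
      exact ih (nxR h hk) hal'
    · have he' : e = enter m x r (j + 1) (.vis .u) := List.mem_singleton.1 he
      subst he'
      obtain ⟨h1, h2⟩ := aliveEnter_of ih h hk hal'
      rw [hb_snoc_u, nu_snoc_u, h1]
      simp only [Bool.false_eq_true, if_false]
      exact ⟨trivial, by omega⟩
    · exact absurd he List.not_mem_nil
    · exact absurd he List.not_mem_nil

theorem aliveEnter {C : List Ltr} {a : Wk} {t : Tag}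
    (h : AtR n t k L (a :: C.map Wk.vis) v c) (hk : (enter m x r j a).2.1 ≤ m)
    (hal : Alive strict n (nx c (enter m x r j a))) :
    hb C.reverse = false ∧ nu C.reverse + j = m :=
  aliveEnter_of (alive6 C) h hk hal

theorem alive5 (C : List Ltr) : ∀ {j : ℕ} {L : List Wk} {c : Cfg (witU m)},
    AtR n (.R5 x r) j L (C.map Wk.vis) v c → Alive strict n c →
      hb C.reverse = true ∧ nu C.reverse + j = m := by
  induction C with
  | nil =>
    intro j L c h hal
    exfalso
    rcases v with _ | ⟨l, v⟩
    · obtain ⟨e, he, _⟩ := h.alive_rm hal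
      exact absurd he List.not_mem_nil
    · obtain ⟨e, he, _⟩ := h.alive_new hal
      exact absurd he List.not_mem_nil
  | cons a C ih =>
    intro j L c h hal
    obtain ⟨e, he, hk, hal'⟩ := h.alive_next hal
    rw [List.reverse_cons]
    rcases a with b | _ | _ | _
    · have he' : e = (.R5 x r, j, .vis (.bit b), true) := List.mem_singleton.1 he
      subst he'
      rw [hb_snoc_bit, nu_snoc_bit]
      exact ih (nxR h hk) hal'
    · have he' : e = (.R5 x r, j, .vis .u, true) := List.mem_singleton.1 he
      subst he'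
      obtain ⟨h1, h2⟩ := ih (nxR h hk) hal'
      rw [hb_snoc_u, nu_snoc_u, h1]
      simp only [if_true]
      exact ⟨trivial, by omega⟩
    · have he' : e ∈ [((.R5 x r, j, .vis .s, true) : Tag × ℕ × Wk × Bool),
        enter m x r j (.vis .s)] := he
      rw [hb_snoc_s, nu_snoc_s]
      refine ⟨rfl, ?_⟩
      rcases List.mem_cons.1 he' with rfl | he'
      · exact (ih (nxR h hk) hal').2
      · have := List.mem_singleton.1 he'
        subst this
        exact (aliveEnter h hk hal').2
    · have he' : e ∈ [((.R5 x r, j, .vis .q, true) : Tag × ℕ × Wk × Bool),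
        enter m x r j (.vis .q)] := he
      rw [hb_snoc_q, nu_snoc_q]
      refine ⟨rfl, ?_⟩
      rcases List.mem_cons.1 he' with rfl | he'
      · exact (ih (nxR h hk) hal').2
      · have := List.mem_singleton.1 he'
        subst this
        exact (aliveEnter h hk hal').2

/-- Guessed cells and ends of rows. -/
def PA (A : List Wk) : Prop := ∀ a ∈ A, (∃ y, a = Wk.g y) ∨ a = Wk.vis .u

/-- The number of ends of rows. -/
def nuA : List Wk → ℕ
  | [] => 0
  | .vis .u :: t => nuA t + 1
  | _ :: t => nuA t

theorem PA.tail {a : Wk} {A : List Wk} (h : PA (a :: A)) : PA A :=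
  fun y hy => h y (List.mem_cons_of_mem _ hy)

theorem alive3 {C : List Ltr} (A : List Wk) (hA : PA A) :
    ∀ {j : ℕ} {L : List Wk} {c : Cfg (witU m)},
    AtR n (.R3 x r) j L (A ++ Wk.mark :: C.map Wk.vis) v c → Alive strict n c →
      nuA A + j + nu C.reverse = m := by
  induction A with
  | nil =>
    intro j L c h hal
    obtain ⟨e, he, hk, hal'⟩ := h.alive_next hal
    have he' : e ∈ [((.R5 x r, j, .mark, true) : Tag × ℕ × Wk × Bool),
      enter m x r j .mark] := he
    simp only [nuA]
    rcases List.mem_cons.1 he' with rfl | he'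
    · have h5 : nu C.reverse + j = m := (alive5 C (nxR h hk) hal').2
      omega
    · have := List.mem_singleton.1 he'
      subst this
      have := (aliveEnter h hk hal').2
      omega
  | cons a A ih =>
    intro j L c h hal
    obtain ⟨e, he, hk, hal'⟩ := h.alive_next hal
    rcases hA a (List.mem_cons_self ..) with ⟨y, rfl⟩ | rfl
    · have he' : e = (.R3 x r, j, .g y, true) := List.mem_singleton.1 he
      subst he'
      exact ih hA.tail (nxR h hk) hal'
    · have he' : e = (.R3 x r, j + 1, .vis .u, true) := List.mem_singleton.1 he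
      subst he'
      have h5 : nuA A + (j + 1) + nu C.reverse = m := ih hA.tail (nxR h hk) hal'
      simp only [nuA]
      omega

theorem alivePick_of {C : List Ltr} {A : List Wk} {y : Bool}
    (ih : ∀ {k : ℕ} {L : List Wk} {c : Cfg (witU m)},
      AtR n (.R2 x b) k L (A ++ Wk.mark :: C.map Wk.vis) v c → Alive strict n c →
        nuA A + nu C.reverse = m) (hA : PA A) {t : Tag} {k' : ℕ}
    (h : AtR n t k' L (Wk.g y :: (A ++ Wk.mark :: C.map Wk.vis)) v c)
    (hk : (pick x b k y).2.1 ≤ m)
    (hal : Alive strict n (nx c (pick x b k y))) : nuA A + nu C.reverse = m := by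
  unfold pick at hal hk
  split_ifs at hal hk with hj
  · have := alive3 A hA (nxR h hk) hal
    omega
  · exact ih (nxR h hk) hal

theorem alive2 {C : List Ltr} (A : List Wk) (hA : PA A) :
    ∀ {k : ℕ} {L : List Wk} {c : Cfg (witU m)},
    AtR n (.R2 x b) k L (A ++ Wk.mark :: C.map Wk.vis) v c → Alive strict n c →
      nuA A + nu C.reverse = m := by
  induction A with
  | nil =>
    intro k L c h hal
    obtain ⟨e, he, hk, hal'⟩ := h.alive_next hal
    exact absurd he List.not_mem_nil
  | cons a A ih =>
    intro k L c h hal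
    obtain ⟨e, he, hk, hal'⟩ := h.alive_next hal
    rcases hA a (List.mem_cons_self ..) with ⟨y, rfl⟩ | rfl
    · have he' : e = pick x b k y := List.mem_singleton.1 he
      subst he'
      show nuA A + _ = _
      exact alivePick_of (ih hA.tail) hA.tail h hk hal'
    · exact absurd he List.not_mem_nil

theorem alivePick {C : List Ltr} {A : List Wk} {y : Bool} (hA : PA A) {t : Tag} {k' : ℕ}
    (h : AtR n t k' L (Wk.g y :: (A ++ Wk.mark :: C.map Wk.vis)) v c)
    (hk : (pick x b k y).2.1 ≤ m)
    (hal : Alive strict n (nx c (pick x b k y))) : nuA A + nu C.reverse = m :=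
  alivePick_of (alive2 A hA) hA h hk hal

theorem alive10 {C : List Ltr} (A : List Wk) (hA : PA A) :
    (∀ {k : ℕ} {L : List Wk} {c : Cfg (witU m)},
      AtR n (.R1 x b) k L (A ++ Wk.mark :: C.map Wk.vis) v c → Alive strict n c →
        ∃ a, a ≤ nuA A ∧ a + nu C.reverse = m) ∧
    (∀ {k : ℕ} {L : List Wk} {c : Cfg (witU m)},
      AtR n (.R0 x b) k L (A ++ Wk.mark :: C.map Wk.vis) v c → Alive strict n c →
        ∃ a, a + 1 ≤ nuA A ∧ a + nu C.reverse = m) := by
  induction A with
  | nil =>
    refine ⟨?_, ?_⟩
    · intro k L c h hal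
      obtain ⟨e, he, hk, hal'⟩ := h.alive_next hal
      exact absurd he List.not_mem_nil
    · intro k L c h hal
      obtain ⟨e, he, hk, hal'⟩ := h.alive_next hal
      exact absurd he List.not_mem_nil
  | cons a A ih =>
    obtain ⟨ih1, ih0⟩ := ih hA.tail
    refine ⟨?_, ?_⟩
    · intro k L c h hal
      obtain ⟨e, he, hk, hal'⟩ := h.alive_next hal
      rcases hA a (List.mem_cons_self ..) with ⟨y, rfl⟩ | rfl
      · have he' : e ∈ [((.R0 x b, k, .g y, true) : Tag × ℕ × Wk × Bool), pick x b k y] := he
        simp only [nuA]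
        rcases List.mem_cons.1 he' with rfl | he'
        · obtain ⟨a, h1, h2⟩ := ih0 (nxR h hk) hal'
          exact ⟨a, by omega, h2⟩
        · have := List.mem_singleton.1 he'
          subst this
          exact ⟨nuA A, le_rfl, alivePick hA.tail h hk hal'⟩
      · exact absurd he List.not_mem_nil
    · intro k L c h hal
      obtain ⟨e, he, hk, hal'⟩ := h.alive_next hal
      rcases hA a (List.mem_cons_self ..) with ⟨y, rfl⟩ | rfl
      · have he' : e = (.R0 x b, k, .g y, true) := List.mem_singleton.1 he
        subst he'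
        exact ih0 (nxR h hk) hal'
      · have he' : e = (.R1 x b, k, .vis .u, true) := List.mem_singleton.1 he
        subst he'
        obtain ⟨a, h1, h2⟩ := ih1 (nxR h hk) hal'
        exact ⟨a, by simp only [nuA]; omega, h2⟩

end alive

section det

variable {k j : ℕ} {L R : List Wk} {v : List Ltr} {c : Cfg (witU m)} {x : Ctx} {r b : Bool}

theorem det7 (C : List Ltr) (hC : allb C) : ∀ {k : ℕ} {L : List Wk} {c : Cfg (witU m)},
    AtR n (.R7 x r) k L (C.map Wk.vis) v c → k + C.length ≤ m →
      ∃ c', Det strict n c c' ∧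
        AtR n (.R7 x r) (k + C.length) ((C.map Wk.vis).reverse ++ L) [] v c' := by
  induction C with
  | nil => intro k L c h _; exact ⟨c, ReflTransGen.refl, h⟩
  | cons a C ih =>
    intro k L c h hk
    obtain ⟨b, rfl⟩ := hC a (List.mem_cons_self ..)
    simp only [List.length_cons] at hk ⊢
    obtain ⟨c1, h1, h2⟩ := detR (strict := strict) (t' := .R7 x r) (k' := k + 1) h rfl (by omega)
    obtain ⟨c2, h3, h4⟩ := ih (fun y hy => hC y (List.mem_cons_of_mem _ hy)) h2 (by omega)
    refine ⟨c2, h1.trans h3, ?_⟩
    have e1 : k + 1 + C.length = k + (C.length + 1) := by omega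
    rw [e1] at h4
    simpa using h4

/-- After the beginning of the current block has been guessed. -/
theorem detEnter_of {C : List Ltr} {a : Wk}
    (ih : ∀ {j : ℕ} {L : List Wk} {c : Cfg (witU m)},
      AtR n (.R6 x r) j L (C.map Wk.vis) v c → j < m → hb C.reverse = false →
      nu C.reverse + j = m → kb C.reverse ≤ m → ∃ c', Det strict n c c' ∧
        AtR n (.R7 x r) (kb C.reverse) ((C.map Wk.vis).reverse ++ L) [] v c')
    {t : Tag} (h : AtR n t k L (a :: C.map Wk.vis) v c)
    (hj : j ≤ m) (hC1 : hb C.reverse = false)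
    (hC2 : nu C.reverse + j = m) (hC3 : kb C.reverse ≤ m) :
      ∃ c', Det strict n (nx c (enter m x r j a)) c' ∧
        AtR n (.R7 x r) (kb C.reverse) ((C.map Wk.vis).reverse ++ a :: L) [] v c' := by
  unfold enter
  split_ifs with hj'
  · have h0 : nu C.reverse = 0 := by omega
    have h1 : allb C.reverse := (allb_iff _).2 ⟨hC1, h0⟩
    have h2 : allb C := fun y hy => h1 y (List.mem_reverse.2 hy)
    have h3 : kb C.reverse = C.length := by rw [kb_allb h1, List.length_reverse]
    rw [h3] at hC3 ⊢
    obtain ⟨c', h4, h5⟩ := det7 (strict := strict) C h2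
      (nxR (t' := .R7 x r) (k' := 0) (w := a) h (Nat.zero_le _)) (by omega)
    rw [Nat.zero_add] at h5
    exact ⟨c', h4, h5⟩
  · exact ih (nxR h hj) (by omega) hC1 hC2 hC3

theorem enter_le (h : j ≤ m) (a : Wk) : (enter m x r j a).2.1 ≤ m := by
  unfold enter
  split_ifs
  · exact Nat.zero_le _
  · exact h

theorem enter_form (m : ℕ) (x : Ctx) (r : Bool) (j : ℕ) (a : Wk) :
    enter m x r j a = ((enter m x r j a).1, (enter m x r j a).2.1, a, true) := by
  unfold enter
  split_ifs <;> rfl

theorem det6 (C : List Ltr) : ∀ {j : ℕ} {L : List Wk} {c : Cfg (witU m)},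
    AtR n (.R6 x r) j L (C.map Wk.vis) v c → j < m → hb C.reverse = false →
      nu C.reverse + j = m → kb C.reverse ≤ m → ∃ c', Det strict n c c' ∧
        AtR n (.R7 x r) (kb C.reverse) ((C.map Wk.vis).reverse ++ L) [] v c' := by
  induction C with
  | nil =>
    intro j L c h hj _ h2 _
    simp only [List.reverse_nil, nu] at h2
    omega
  | cons a C ih =>
    intro j L c h hj h1 h2 h3
    rw [List.reverse_cons] at h1 h2 h3 ⊢
    rcases a with b | _ | _ | _
    · rw [hb_snoc_bit] at h1
      rw [nu_snoc_bit] at h2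
      have hn : ¬ allb C.reverse := by
        rw [allb_iff]
        omega
      rw [kb_snoc_of hn] at h3 ⊢
      obtain ⟨c1, h4, h5⟩ := detR (strict := strict) (t' := .R6 x r) (k' := j) h rfl hj.le
      obtain ⟨c2, h6, h7⟩ := ih h5 hj h1 h2 h3
      refine ⟨c2, h4.trans h6, ?_⟩
      simpa using h7
    · rw [hb_snoc_u] at h1
      rw [nu_snoc_u, h1] at h2
      simp only [Bool.false_eq_true, if_false] at h2
      rw [kb_snoc_u] at h3 ⊢
      have hk : (enter m x r (j + 1) (.vis .u)).2.1 ≤ m := enter_le (by omega) _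
      have hst : U1 strict n c (nx c (enter m x r (j + 1) (.vis .u))) := by
        refine u1_of (step_mk ?_ hk (h.pos_le le_rfl) ?_ ?_) ?_
        · rw [h.st, h.nu, h.read]
          exact List.mem_singleton.2 rfl
        · rw [enter_form]
          exact fun h => absurd h (by simp)
        · intro _
          rw [h.read, enter_form]
          rfl
        · intro e' h1 _ h2
          rw [h.st, h.nu, h.read] at h1
          exact absurd (List.mem_singleton.1 h1) h2
      obtain ⟨c2, h6, h7⟩ := detEnter_of (strict := strict) ih h (j := j + 1) (by omega) h1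
        (by omega) h3
      refine ⟨c2, (ReflTransGen.single hst).trans h6, ?_⟩
      simpa using h7
    · rw [hb_snoc_s] at h1
      exact absurd h1 (by simp)
    · rw [hb_snoc_q] at h1
      exact absurd h1 (by simp)

theorem detEnter {C : List Ltr} {a : Wk}
    {t : Tag} (h : AtR n t k L (a :: C.map Wk.vis) v c)
    (hj : j ≤ m) (hC1 : hb C.reverse = false)
    (hC2 : nu C.reverse + j = m) (hC3 : kb C.reverse ≤ m) :
      ∃ c', Det strict n (nx c (enter m x r j a)) c' ∧
        AtR n (.R7 x r) (kb C.reverse) ((C.map Wk.vis).reverse ++ a :: L) [] v c' :=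
  detEnter_of (det6 C) h hj hC1 hC2 hC3

/-- The choice at the beginning of a block. -/
theorem detChoose_of {C : List Ltr} {a : Wk}
    (ih : ∀ {L : List Wk} {c : Cfg (witU m)},
      AtR n (.R5 x r) j L (C.map Wk.vis) v c → hb C.reverse = true →
      nu C.reverse + j = m → kb C.reverse ≤ m → ∃ c', Det strict n c c' ∧
        AtR n (.R7 x r) (kb C.reverse) ((C.map Wk.vis).reverse ++ L) [] v c')
    {t : Tag} (h : AtR n t k L (a :: C.map Wk.vis) v c)
    (he : tr m t k (.sym a) = [(.R5 x r, j, a, true), enter m x r j a])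
    (hj : j ≤ m) (hC2 : nu C.reverse + j = m) (hC3 : kb C.reverse ≤ m) :
      ∃ c', Det strict n c c' ∧
        AtR n (.R7 x r) (kb C.reverse) ((C.map Wk.vis).reverse ++ a :: L) [] v c' := by
  have hstep : ∀ e : Tag × ℕ × Wk × Bool, e ∈ [((.R5 x r, j, a, true) : Tag × ℕ × Wk × Bool),
      enter m x r j a] → e.2.1 ≤ m ∧ Step strict n c (nx c e) := by
    intro e he'
    have hk : e.2.1 ≤ m ∧ e.2.2 = (a, true) := by
      rcases List.mem_cons.1 he' with rfl | he'
      · exact ⟨hj, rfl⟩
      · have := List.mem_singleton.1 he'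
        subst this
        rw [enter_form]
        exact ⟨enter_le hj _, rfl⟩
    refine ⟨hk.1, step_mk ?_ hk.1 (h.pos_le le_rfl) ?_ ?_⟩
    · rw [h.st, h.nu, h.read, he]
      exact he'
    · rw [hk.2]
      exact fun h => absurd h (by simp)
    · intro _
      rw [hk.2, h.read]
      rfl
  rcases hhb : hb C.reverse with _ | _
  · obtain ⟨hk, hs⟩ := hstep (enter m x r j a) (by simp)
    obtain ⟨c', h1, h2⟩ := detEnter (strict := strict) h hj hhb hC2 hC3
    refine ⟨c', (ReflTransGen.single (u1_of hs ?_)).trans h1, h2⟩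
    intro e' h3 h4 h5 hal
    rw [h.st, h.nu, h.read, he] at h3
    rcases List.mem_cons.1 h3 with rfl | h3
    · have := (alive5 C (nxR h h4) hal).1
      rw [hhb] at this
      exact absurd this (by simp)
    · exact h5 (List.mem_singleton.1 h3)
  · obtain ⟨hk, hs⟩ := hstep (.R5 x r, j, a, true) (by simp)
    obtain ⟨c', h1, h2⟩ := ih (nxR h hk) hhb hC2 hC3
    refine ⟨c', (ReflTransGen.single (u1_of hs ?_)).trans h1, h2⟩
    intro e' h3 h4 h5 hal
    rw [h.st, h.nu, h.read, he] at h3
    rcases List.mem_cons.1 h3 with h3 | h3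
    · exact h5 h3
    · have := List.mem_singleton.1 h3
      subst this
      have := (aliveEnter h h4 hal).1
      rw [hhb] at this
      exact absurd this (by simp)

theorem det5 (C : List Ltr) (hj : j ≤ m) : ∀ {L : List Wk} {c : Cfg (witU m)},
    AtR n (.R5 x r) j L (C.map Wk.vis) v c → hb C.reverse = true →
      nu C.reverse + j = m → kb C.reverse ≤ m → ∃ c', Det strict n c c' ∧
        AtR n (.R7 x r) (kb C.reverse) ((C.map Wk.vis).reverse ++ L) [] v c' := by
  induction C with
  | nil =>
    intro L c h h1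
    exact absurd h1 (by simp [hb])
  | cons a C ih =>
    intro L c h h1 h2 h3
    rw [List.reverse_cons] at h1 h2 h3 ⊢
    rcases a with b | _ | _ | _
    · rw [hb_snoc_bit] at h1
      rw [nu_snoc_bit] at h2
      have hn : ¬ allb C.reverse := by
        rw [allb_iff, h1]
        simp
      rw [kb_snoc_of hn] at h3 ⊢
      obtain ⟨c1, h4, h5⟩ := detR (strict := strict) (t' := .R5 x r) (k' := j) h rfl hj
      obtain ⟨c2, h6, h7⟩ := ih h5 h1 h2 h3
      refine ⟨c2, h4.trans h6, ?_⟩
      simpa using h7
    · rw [hb_snoc_u] at h1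
      rw [nu_snoc_u, h1] at h2
      simp only [if_true, Nat.add_zero] at h2
      rw [kb_snoc_u] at h3 ⊢
      obtain ⟨c1, h4, h5⟩ := detR (strict := strict) (t' := .R5 x r) (k' := j) h rfl hj
      obtain ⟨c2, h6, h7⟩ := ih h5 h1 h2 h3
      refine ⟨c2, h4.trans h6, ?_⟩
      simpa using h7
    · rw [nu_snoc_s] at h2
      rw [kb_snoc_s] at h3 ⊢
      obtain ⟨c2, h6, h7⟩ := detChoose_of (strict := strict) ih h rfl hj h2 h3
      refine ⟨c2, h6, ?_⟩
      simpa using h7
    · rw [nu_snoc_q] at h2
      rw [kb_snoc_q] at h3 ⊢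
      obtain ⟨c2, h6, h7⟩ := detChoose_of (strict := strict) ih h rfl hj h2 h3
      refine ⟨c2, h6, ?_⟩
      simpa using h7

theorem det3 {C : List Ltr} (hC : kb C.reverse ≤ m) (A : List Wk) (hA : PA A) :
    ∀ {j : ℕ} {L : List Wk} {c : Cfg (witU m)},
    AtR n (.R3 x r) j L (A ++ Wk.mark :: C.map Wk.vis) v c → nuA A + j + nu C.reverse = m →
      ∃ c', Det strict n c c' ∧ AtR n (.R7 x r) (kb C.reverse)
        ((A ++ Wk.mark :: C.map Wk.vis).reverse ++ L) [] v c' := by
  induction A with
  | nil =>
    intro j L c h h1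
    simp only [nuA, Nat.zero_add] at h1
    obtain ⟨c2, h6, h7⟩ := detChoose_of (strict := strict) (det5 C (by omega)) h rfl (by omega)
      (by omega) hC
    refine ⟨c2, h6, ?_⟩
    simpa using h7
  | cons a A ih =>
    intro j L c h h1
    rcases hA a (List.mem_cons_self ..) with ⟨y, rfl⟩ | rfl
    · simp only [nuA] at h1
      obtain ⟨c1, h4, h5⟩ := detR (strict := strict) (t' := .R3 x r) (k' := j) h rfl (by omega)
      obtain ⟨c2, h6, h7⟩ := ih hA.tail h5 h1
      refine ⟨c2, h4.trans h6, ?_⟩
      simpa using h7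
    · simp only [nuA] at h1
      obtain ⟨c1, h4, h5⟩ := detR (strict := strict) (t' := .R3 x r) (k' := j + 1) h rfl (by omega)
      obtain ⟨c2, h6, h7⟩ := ih hA.tail h5 (by omega)
      refine ⟨c2, h4.trans h6, ?_⟩
      simpa using h7

theorem pick_form (x : Ctx) (b : Bool) (k : ℕ) (y : Bool) :
    pick x b k y = ((pick x b k y).1, (pick x b k y).2.1, .g y, true) := by
  unfold pick
  split_ifs <;> rfl

theorem pick_le (h : k ≤ m) (y : Bool) : (pick x b k y).2.1 ≤ m := by
  unfold pick
  split_ifs
  · exact Nat.zero_le _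
  · simp only
    omega

theorem PA_g (G : List Bool) {A : List Wk} (hA : PA A) : PA (G.map Wk.g ++ A) := by
  intro a ha
  rcases List.mem_append.1 ha with h | h
  · obtain ⟨y, _, rfl⟩ := List.mem_map.1 h
    exact Or.inl ⟨y, rfl⟩
  · exact hA a h

theorem nuA_g (G : List Bool) (A : List Wk) : nuA (G.map Wk.g ++ A) = nuA A := by
  induction G with
  | nil => rfl
  | cons y G ih => simpa [nuA] using ih

theorem detPick_of {C : List Ltr} (hC : kb C.reverse ≤ m) {A : List Wk} (hA : PA A) {G : List Bool}
    {y z : Bool}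
    (ih : ∀ {k : ℕ} {L : List Wk} {c : Cfg (witU m)}, k ≤ m →
      AtR n (.R2 x b) k L (G.map Wk.g ++ (A ++ Wk.mark :: C.map Wk.vis)) v c → G[k]? = some z →
      nuA A + nu C.reverse = m →
      ∃ c', Det strict n c c' ∧ AtR n (.R7 x (z == b)) (kb C.reverse)
        ((G.map Wk.g ++ (A ++ Wk.mark :: C.map Wk.vis)).reverse ++ L) [] v c')
    {t : Tag} {k' : ℕ}
    (h : AtR n t k' L (Wk.g y :: (G.map Wk.g ++ (A ++ Wk.mark :: C.map Wk.vis))) v c)
    (hk : k ≤ m) (hz : (y :: G)[k]? = some z) (hn : nuA A + nu C.reverse = m) :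
      ∃ c', Det strict n (nx c (pick x b k y)) c' ∧ AtR n (.R7 x (z == b)) (kb C.reverse)
        ((Wk.g y :: (G.map Wk.g ++ (A ++ Wk.mark :: C.map Wk.vis))).reverse ++ L) [] v c' := by
  unfold pick
  split_ifs with hk0
  · subst hk0
    simp only [List.getElem?_cons_zero, Option.some.injEq] at hz
    subst hz
    have h1 := nxR (t' := .R3 x (y == b)) (k' := 0) (w := .g y) h (Nat.zero_le _)
    rw [← List.append_assoc] at h1
    obtain ⟨c', h2, h3⟩ := det3 (strict := strict) hC _ (PA_g G hA) h1 (by rw [nuA_g]; omega)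
    refine ⟨c', h2, ?_⟩
    simpa using h3
  · obtain ⟨k, rfl⟩ : ∃ k0, k = k0 + 1 := ⟨k - 1, by omega⟩
    simp only [List.getElem?_cons_succ] at hz
    have h1 := nxR (t' := .R2 x b) (k' := k) (w := .g y) h (by omega)
    obtain ⟨c', h2, h3⟩ := ih (by omega) h1 hz hn
    refine ⟨c', h2, ?_⟩
    simpa using h3

theorem det2 {C : List Ltr} (hC : kb C.reverse ≤ m) {A : List Wk} (hA : PA A) (G : List Bool)
    {z : Bool} : ∀ {k : ℕ} {L : List Wk} {c : Cfg (witU m)}, k ≤ m →
      AtR n (.R2 x b) k L (G.map Wk.g ++ (A ++ Wk.mark :: C.map Wk.vis)) v c → G[k]? = some z →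
      nuA A + nu C.reverse = m →
      ∃ c', Det strict n c c' ∧ AtR n (.R7 x (z == b)) (kb C.reverse)
        ((G.map Wk.g ++ (A ++ Wk.mark :: C.map Wk.vis)).reverse ++ L) [] v c' := by
  induction G with
  | nil =>
    intro k L c _ _ hz
    exact absurd hz (by simp)
  | cons y G ih =>
    intro k L c hk h hz hn
    have hst : U1 strict n c (nx c (pick x b k y)) := by
      refine u1_of (step_mk ?_ (pick_le hk y) (h.pos_le le_rfl) ?_ ?_) ?_
      · rw [h.st, h.nu, AtR.read (a := .g y) h]
        exact List.mem_singleton.2 rfl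
      · rw [pick_form]
        exact fun h => absurd h (by simp)
      · intro _
        rw [AtR.read (a := .g y) h, pick_form]
        rfl
      · intro e' h1 _ h2
        rw [h.st, h.nu, AtR.read (a := .g y) h] at h1
        exact absurd (List.mem_singleton.1 h1) h2
    obtain ⟨c2, h6, h7⟩ := detPick_of (strict := strict) hC hA ih h hk hz hn
    exact ⟨c2, (ReflTransGen.single hst).trans h6, h7⟩

theorem detPick {C : List Ltr} (hC : kb C.reverse ≤ m) {A : List Wk} (hA : PA A) {G : List Bool}
    {y z : Bool} {t : Tag} {k' : ℕ}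
    (h : AtR n t k' L (Wk.g y :: (G.map Wk.g ++ (A ++ Wk.mark :: C.map Wk.vis))) v c)
    (hk : k ≤ m) (hz : (y :: G)[k]? = some z) (hn : nuA A + nu C.reverse = m) :
      ∃ c', Det strict n (nx c (pick x b k y)) c' ∧ AtR n (.R7 x (z == b)) (kb C.reverse)
        ((Wk.g y :: (G.map Wk.g ++ (A ++ Wk.mark :: C.map Wk.vis))).reverse ++ L) [] v c' :=
  detPick_of hC hA (det2 hC hA G) h hk hz hn

/-- The cells of the rows. -/
def cells (rows : List (List Bool)) : List Wk := rows.flatMap fun G => G.map Wk.g ++ [Wk.vis .u]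

theorem cells_cons (G : List Bool) (rows : List (List Bool)) :
    cells (G :: rows) = G.map Wk.g ++ Wk.vis .u :: cells rows := by
  simp [cells]

theorem PA_cells (rows : List (List Bool)) : PA (cells rows) := by
  induction rows with
  | nil => intro a ha; exact absurd ha (by simp [cells])
  | cons G rows ih =>
    rw [cells_cons]
    apply PA_g
    intro a ha
    rcases List.mem_cons.1 ha with rfl | ha
    · exact Or.inr rfl
    · exact ih a ha

theorem nuA_cells (rows : List (List Bool)) : nuA (cells rows) = rows.length := by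
  induction rows with
  | nil => rfl
  | cons G rows ih =>
    rw [cells_cons, nuA_g]
    simp only [nuA, ih, List.length_cons]

/-- Passing over the rest of a row. -/
theorem det0 (G : List Bool) {R : List Wk} (hk : k ≤ m) : ∀ {L : List Wk} {c : Cfg (witU m)},
    AtR n (.R0 x b) k L (G.map Wk.g ++ Wk.vis .u :: R) v c →
      ∃ c', Det strict n c c' ∧ AtR n (.R1 x b) k
        ((G.map Wk.g ++ [Wk.vis .u]).reverse ++ L) R v c' := by
  induction G with
  | nil =>
    intro L c h
    obtain ⟨c1, h4, h5⟩ := detR (strict := strict) (t' := .R1 x b) (k' := k) h rfl hk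
    exact ⟨c1, h4, by simpa using h5⟩
  | cons y G ih =>
    intro L c h
    obtain ⟨c1, h4, h5⟩ := detR (strict := strict) (t' := .R0 x b) (k' := k) h rfl hk
    obtain ⟨c2, h6, h7⟩ := ih h5
    exact ⟨c2, h4.trans h6, by simpa using h7⟩

/-- The comparison. -/
theorem det1 {C : List Ltr} (hC : kb C.reverse ≤ m) (hk : k ≤ m) {z : Bool}
    (rows : List (List Bool)) (hrows : ∀ G ∈ rows, G ≠ []) :
    ∀ {i : ℕ} {G : List Bool} {L : List Wk} {c : Cfg (witU m)},
    AtR n (.R1 x b) k L (cells rows ++ Wk.mark :: C.map Wk.vis) v c →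
      rows[i]? = some G → G[k]? = some z → rows.length + nu C.reverse = m + i →
      ∃ c', Det strict n c c' ∧ AtR n (.R7 x (z == b)) (kb C.reverse)
        ((cells rows ++ Wk.mark :: C.map Wk.vis).reverse ++ L) [] v c' := by
  induction rows with
  | nil =>
    intro i G L c _ h1
    exact absurd h1 (by simp)
  | cons G0 rows ih =>
    intro i G L c h h1 h2 h3
    rw [cells_cons] at h ⊢
    have hG0 := hrows G0 (List.mem_cons_self ..)
    obtain ⟨y, G1, rfl⟩ : ∃ y G1, G0 = y :: G1 := by
      cases G0 with
      | nil => exact absurd rfl hG0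
      | cons y G1 => exact ⟨y, G1, rfl⟩
    simp only [List.map_cons, List.cons_append] at h ⊢
    simp only [List.length_cons] at h3
    have hPA : PA (Wk.vis .u :: cells rows) := by
      intro a ha
      rcases List.mem_cons.1 ha with rfl | ha
      · exact Or.inr rfl
      · exact PA_cells rows a ha
    have hA : nuA (G1.map Wk.g ++ (Wk.vis .u :: cells rows)) = rows.length + 1 := by
      rw [nuA_g]
      simp only [nuA, nuA_cells]
    have hform : G1.map Wk.g ++ Wk.vis .u :: cells rows ++ Wk.mark :: C.map Wk.vis =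
        G1.map Wk.g ++ ((Wk.vis .u :: cells rows) ++ Wk.mark :: C.map Wk.vis) := by simp
    have hread := AtR.read (a := .g y) h
    have hstep : ∀ e : Tag × ℕ × Wk × Bool, e ∈ [((.R0 x b, k, .g y, true) : Tag × ℕ × Wk × Bool),
        pick x b k y] → e.2.1 ≤ m ∧ Step strict n c (nx c e) := by
      intro e he'
      have hk : e.2.1 ≤ m ∧ e.2.2 = (.g y, true) := by
        rcases List.mem_cons.1 he' with rfl | he'
        · exact ⟨hk, rfl⟩
        · have := List.mem_singleton.1 he'
          subst this
          rw [pick_form]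
          exact ⟨pick_le hk _, rfl⟩
      refine ⟨hk.1, step_mk ?_ hk.1 (h.pos_le le_rfl) ?_ ?_⟩
      · rw [h.st, h.nu, hread]
        exact he'
      · rw [hk.2]
        exact fun h => absurd h (by simp)
      · intro _
        rw [hk.2, hread]
        rfl
    rcases i with _ | i
    · simp only [List.getElem?_cons_zero, Option.some.injEq] at h1
      subst h1
      obtain ⟨hk1, hs⟩ := hstep (pick x b k y) (by simp)
      rw [hform] at h
      obtain ⟨c', h4, h5⟩ := detPick (strict := strict) (x := x) (b := b) hC hPA h hk h2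
        (by simp only [nuA, nuA_cells]; omega)
      rw [hform]
      refine ⟨c', (ReflTransGen.single (u1_of hs ?_)).trans h4, h5⟩
      intro e' h6 h7 h8 hal
      rw [h.st, h.nu, hread] at h6
      rcases List.mem_cons.1 h6 with rfl | h6
      · have h9 := nxR (t' := .R0 x b) (k' := k) (w := .g y) h h7
        rw [← List.append_assoc] at h9
        obtain ⟨a, h10, h11⟩ := (alive10 _ (PA_g G1 hPA)).2 h9 hal
        rw [hA] at h10
        omega
      · exact h8 (List.mem_singleton.1 h6)
    · simp only [List.getElem?_cons_succ] at h1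
      obtain ⟨hk1, hs⟩ := hstep (.R0 x b, k, .g y, true) (by simp)
      have h9 := nxR (t' := .R0 x b) (k' := k) (w := .g y) h hk
      have h9' : AtR n (.R0 x b) k (Wk.g y :: L)
          (G1.map Wk.g ++ Wk.vis .u :: (cells rows ++ Wk.mark :: C.map Wk.vis)) v
          (nx c (.R0 x b, k, .g y, true)) := by simpa using h9
      obtain ⟨c1, h4, h5⟩ := det0 (strict := strict) G1 hk h9'
      obtain ⟨c2, h12, h13⟩ := ih (fun G hG => hrows G (List.mem_cons_of_mem _ hG)) h5 h1 h2
        (by omega)
      refine ⟨c2, (ReflTransGen.single (u1_of hs ?_)).trans (h4.trans h12), ?_⟩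
      · intro e' h6 h7 h8 hal
        rw [h.st, h.nu, hread] at h6
        rcases List.mem_cons.1 h6 with h6 | h6
        · exact h8 h6
        · have := List.mem_singleton.1 h6
          subst this
          rw [hform] at h
          have h10 := alivePick (A := G1.map Wk.g ++ (Wk.vis .u :: cells rows)) (C := C)
            (PA_g G1 hPA) (t := .R1 x b) (k' := k) (L := L) (v := v) (c := c) (n := n)
            (by rw [List.append_assoc]; exact h) h7 hal
          rw [hA] at h10
          omega
      · simpa using h13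

/-- Symbols of visited cells. -/
def OK (L : List Wk) : Prop := ∀ a ∈ L, ∀ l, a ≠ Wk.raw l

theorem OK.tail {a : Wk} {L : List Wk} (h : OK (a :: L)) : OK L :=
  fun y hy => h y (List.mem_cons_of_mem _ hy)

theorem detN (i : Option (Ctx × Bool)) (full : Bool) (hk : k ≤ m) (R : List Wk) (hR : OK R) :
    ∀ {L : List Wk} {c : Cfg (witU m)}, AtR n (.N i full) k L R v c →
      ∃ c', Det strict n c c' ∧ AtR n (.N i full) k (R.reverse ++ L) [] v c' := by
  induction R with
  | nil => intro L c h; exact ⟨c, ReflTransGen.refl, h⟩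
  | cons a R ih =>
    intro L c h
    have he : tr m (.N i full) k (.sym a) = [(.N i full, k, a, true)] := by
      rcases a with l | l | y | _
      · exact absurd rfl (hR _ (List.mem_cons_self ..) l)
      · rfl
      · rfl
      · rfl
    obtain ⟨c1, h4, h5⟩ := detR (strict := strict) h he hk
    obtain ⟨c2, h6, h7⟩ := ih hR.tail h5
    exact ⟨c2, h4.trans h6, by simpa using h7⟩

theorem detC (R : List Wk) (hR : OK R) :
    ∀ {L : List Wk} {c : Cfg (witU m)}, AtR n .Cz 0 L R v c →
      ∃ c', Det strict n c c' ∧ AtR n .Cz 0 (R.reverse ++ L) [] v c' := by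
  induction R with
  | nil => intro L c h; exact ⟨c, ReflTransGen.refl, h⟩
  | cons a R ih =>
    intro L c h
    have he : tr m .Cz 0 (.sym a) = [(.Cz, 0, a, true)] := by
      rcases a with l | l | y | _
      · exact absurd rfl (hR _ (List.mem_cons_self ..) l)
      · rfl
      · rfl
      · rfl
    obtain ⟨c1, h4, h5⟩ := detR (strict := strict) h he (Nat.zero_le _)
    obtain ⟨c2, h6, h7⟩ := ih hR.tail h5
    exact ⟨c2, h4.trans h6, by simpa using h7⟩

theorem detLb (hk : k ≤ m) (L : List Wk) (hL : OK L) :
    ∀ {R : List Wk} {c : Cfg (witU m)}, AtL n (.Lb x b) k L R v c →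
      ∃ c', Det strict n c c' ∧ AtR n (.R1 x b) k [] (L.reverse ++ R) v c' := by
  induction L with
  | nil =>
    intro R c h
    obtain ⟨c1, h4, h5⟩ := detlm (strict := strict) (w := .mark) h rfl hk
    exact ⟨c1, h4, h5⟩
  | cons a L ih =>
    intro R c h
    have he : tr m (.Lb x b) k (.sym a) = [(.Lb x b, k, a, false)] := by
      rcases a with l | l | y | _
      · exact absurd rfl (hL _ (List.mem_cons_self ..) l)
      · rfl
      · rfl
      · rfl
    obtain ⟨c1, h4, h5⟩ := detL (strict := strict) h he hk
    obtain ⟨c2, h6, h7⟩ := ih hL.tail h5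
    exact ⟨c2, h4.trans h6, by simpa using h7⟩

theorem detLz (L : List Wk) (hL : OK L) (hg : Wk.g true ∉ L) :
    ∀ {R : List Wk} {c : Cfg (witU m)}, AtL n .Lz 0 L R v c →
      ∃ c', Det strict n c c' ∧ AtR n .Cz 0 [] (L.reverse ++ R) v c' := by
  induction L with
  | nil =>
    intro R c h
    obtain ⟨c1, h4, h5⟩ := detlm (strict := strict) (w := .mark) h rfl (Nat.zero_le _)
    exact ⟨c1, h4, h5⟩
  | cons a L ih =>
    intro R c h
    have he : tr m .Lz 0 (.sym a) = [(.Lz, 0, a, false)] := by
      rcases a with l | l | y | _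
      · exact absurd rfl (hL _ (List.mem_cons_self ..) l)
      · rfl
      · rcases y with _ | _
        · rfl
        · exact absurd (List.mem_cons_self ..) hg
      · rfl
    obtain ⟨c1, h4, h5⟩ := detL (strict := strict) h he (Nat.zero_le _)
    obtain ⟨c2, h6, h7⟩ := ih hL.tail (fun h' => hg (List.mem_cons_of_mem _ h')) h5
    exact ⟨c2, h4.trans h6, by simpa using h7⟩

theorem aliveLz (L : List Wk) :
    ∀ {R : List Wk} {c : Cfg (witU m)}, AtL n .Lz 0 L R v c → Alive strict n c →
      Wk.g true ∉ L := by
  induction L with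
  | nil => intro _ _ _ _ h; exact absurd h (by simp)
  | cons a L ih =>
    intro R c h hal hm
    obtain ⟨e, he, hk, hal'⟩ := h.alive_next hal
    rcases List.mem_cons.1 hm with h1 | h1
    · subst h1
      exact absurd he List.not_mem_nil
    · have hf : e = (.Lz, 0, a, false) := by
        rcases a with l | l | y | _
        · exact absurd he List.not_mem_nil
        · exact List.mem_singleton.1 he
        · rcases y with _ | _
          · exact List.mem_singleton.1 he
          · exact absurd he List.not_mem_nil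
        · exact List.mem_singleton.1 he
      subst hf
      exact ih (nxL h hk) hal' h1

/-- The number of rows of the block to the left. -/
def nuR : List Wk → ℕ
  | [] => 0
  | .vis .u :: t => nuR t + 1
  | .vis (.bit _) :: t => nuR t
  | .g _ :: t => nuR t
  | _ :: _ => 0

theorem nuR_vis (D : List Ltr) (L : List Wk) : nuR (D.map Wk.vis ++ Wk.mark :: L) = nu D := by
  induction D with
  | nil => rfl
  | cons a D ih => rcases a with _ | _ | _ | _ <;> simp [nuR, nu, ih]

theorem nuR_PA {L : List Wk} (h : PA L) : nuR L = nuA L := by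
  induction L with
  | nil => rfl
  | cons a L ih =>
    rcases h a (List.mem_cons_self ..) with ⟨y, rfl⟩ | rfl
    · simp only [nuR, nuA, ih h.tail]
    · simp only [nuR, nuA, ih h.tail]

theorem detLu (i : Option (Ctx × Bool)) (L : List Wk) (hL : OK L) :
    ∀ {k : ℕ} {R : List Wk} {c : Cfg (witU m)}, OK R → AtL n (.Lu i) k L R v c → k + nuR L ≤ m →
      ∃ c', Det strict n c c' ∧ AtR n (.N i (decide (k + nuR L = m))) 0
        ((L.reverse ++ R).reverse) [] v c' := by
  induction L with
  | nil =>
    intro k R c hR h hk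
    obtain ⟨c1, h4, h5⟩ := detlm (strict := strict) (w := .mark) (k' := 0)
      (t' := .N i (decide (k = m))) h rfl (Nat.zero_le _)
    obtain ⟨c2, h6, h7⟩ := detN (strict := strict) i _ (Nat.zero_le _) R hR h5
    exact ⟨c2, h4.trans h6, by simpa [nuR] using h7⟩
  | cons a L ih =>
    intro k R c hR h hk
    have hR' : OK (a :: R) := by
      intro y hy
      rcases List.mem_cons.1 hy with rfl | hy
      · exact hL _ (List.mem_cons_self ..)
      · exact hR y hy
    have hgo : ∀ k', nuR (a :: L) + k = nuR L + k' →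
        tr m (.Lu i) k (.sym a) = [(.Lu i, k', a, false)] → ∃ c', Det strict n c c' ∧
        AtR n (.N i (decide (k + nuR (a :: L) = m))) 0 (((a :: L).reverse ++ R).reverse) [] v
          c' := by
      intro k' h1 he
      obtain ⟨c1, h4, h5⟩ := detL (strict := strict) h he (by omega)
      obtain ⟨c2, h6, h7⟩ := ih hL.tail hR' h5 (by omega)
      have e1 : k' + nuR L = k + nuR (a :: L) := by omega
      rw [e1] at h7
      exact ⟨c2, h4.trans h6, by simpa using h7⟩
    have hturn : nuR (a :: L) = 0 →
        tr m (.Lu i) k (.sym a) = [(.N i (decide (k = m)), 0, a, true)] → ∃ c', Det strict n c c' ∧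
        AtR n (.N i (decide (k + nuR (a :: L) = m))) 0 (((a :: L).reverse ++ R).reverse) [] v
          c' := by
      intro h1 he
      obtain ⟨c1, h4, h5⟩ := detT (strict := strict) h he (Nat.zero_le _)
      obtain ⟨c2, h6, h7⟩ := detN (strict := strict) i _ (Nat.zero_le _) R hR h5
      rw [h1, Nat.add_zero]
      exact ⟨c2, h4.trans h6, by simpa using h7⟩
    rcases a with l | l | y | _
    · exact absurd rfl (hL _ (List.mem_cons_self ..) l)
    · rcases l with b | _ | _ | _
      · exact hgo k (by simp only [nuR]) rfl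
      · exact hgo (k + 1) (by simp only [nuR]; omega) rfl
      · exact hturn rfl rfl
      · exact hturn rfl rfl
    · exact hgo k (by simp only [nuR]) rfl
    · exact hturn rfl rfl

end det

end Pool.Agent.U593.UL
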