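import Mathlib
import Pool.Agent.U593.UL.Exc

set_option autoImplicit false

/-! # The long steps of the machine -/

namespace Pool.Agent.U593.UL

open Pool.Agent.H630R2.LA Relation
open Pool.Agent.TH705.LB (Ltr)

/-- The states of the evaluation: in the first block at the entry `(i, k)`; in a later block at the
entry `(i, k)` (`x`: the last block, `f`: found, `st`: equal so far); in a malformed block;
malformed input. -/
inductive ES : Type
  | p (i k : ℕ)
  | n (x f st : Bool) (i k : ℕ)
  | y (f : Bool)
  | z

/-- The state after a malformed block. -/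
def badE (x f : Bool) : ES := if x = true then .z else .y f

/-- The evaluation with the guess `X`. -/
def stp (m : ℕ) (X : ℕ → ℕ → Bool) : ES → Ltr → ES
  | .p i k, .bit _ => if i = m ∨ k = m then .z else .p i (k + 1)
  | .p i k, .u => if i = m ∨ k ≠ m then .z else .p (i + 1) 0
  | .p i _, .s => if i = m then .n false false true 0 0 else .z
  | .p _ _, .q => .z
  | .n x f st i k, .bit b => if i = m ∨ k = m then badE x f else .n x f (st && (X i k == b)) i (k + 1)
  | .n x f st i k, .u => if i = m ∨ k ≠ m then badE x f else .n x f st (i + 1) 0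
  | .n false f st i _, .s => .n false (f || (decide (i = m) && st)) true 0 0
  | .n false f st i _, .q => .n true (f || (decide (i = m) && st)) true 0 0
  | .n true _ _ _ _, .s => .z
  | .n true _ _ _ _, .q => .z
  | .y f, .bit _ => .y f
  | .y f, .u => .y f
  | .y f, .s => .n false f true 0 0
  | .y f, .q => .n true f true 0 0
  | .z, _ => .z

/-- The written symbol. -/
def wr (m : ℕ) (X : ℕ → ℕ → Bool) : ES → Ltr → Wk
  | .p i k, .bit b => if i = m ∨ k = m then .vis (.bit b) else .g (X i k)
  | .p i _, .s => if i = m then .mark else .vis .s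
  | _, l => .vis l

/-- The mode and the number represent the state of the evaluation. -/
def Rep (m : ℕ) (t : Tag) (k' : ℕ) : ES → Prop
  | .p i k => t = .N none (decide (i = m)) ∧ k' = k
  | .n x f st i k =>
    (t = .N (some ((x, f), st)) (decide (i = m)) ∨ (i ≠ m ∧ t = .R7 (x, f) st)) ∧ k' = k
  | .y f => t = .Y f
  | .z => t = .Z

/-- The first `k` bits of a row of the guess. -/
def rowL (X : ℕ → ℕ → Bool) (i k : ℕ) : List Bool := (List.range k).map (X i)

/-- The first `i` rows of the guess. -/
def rowsL (m : ℕ) (X : ℕ → ℕ → Bool) (i : ℕ) : List (List Bool) :=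
  (List.range i).map fun r => rowL X r m

/-- The first block up to the entry `(i, k)`. -/
def Pl (m : ℕ) (X : ℕ → ℕ → Bool) (i k : ℕ) : List Wk :=
  cells (rowsL m X i) ++ (rowL X i k).map Wk.g

/-- The content of the visited cells. -/
def Inv (m : ℕ) (X : ℕ → ℕ → Bool) : ES → List Wk → Prop
  | .p i k, T => T = (Pl m X i k).reverse ∧ i ≤ m ∧ k ≤ m ∧ (i = m → k = 0)
  | .n _ _ _ i k, T => ∃ D : List Ltr, T = D.map Wk.vis ++ Wk.mark :: (Pl m X m 0).reverse ∧
      nu D = i ∧ kb D = k ∧ i ≤ m ∧ k ≤ m ∧ (i = m → k = 0)
  | .y _, T => ∃ D : List Ltr, T = D.map Wk.vis ++ Wk.mark :: (Pl m X m 0).reverse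
  | .z, _ => True

/-- The situation at the first visit of a cell, or at the right end-marker. -/
structure Sit (n : ℕ) {m : ℕ} (X : ℕ → ℕ → Bool) (e : ES) (T : List Wk) (v : List Ltr)
    (c : Cfg (witU m)) : Prop where
  rep : Rep m c.state.1 c.state.2.val e
  inv : Inv m X e T
  ok : OK T
  at' : AtR n c.state.1 c.state.2.val T [] v c

section lists

variable {m : ℕ} {X : ℕ → ℕ → Bool}

theorem rowL_succ (i k : ℕ) : rowL X i (k + 1) = rowL X i k ++ [X i k] := by
  simp [rowL, List.range_succ]

theorem Pl_bit (i k : ℕ) : (Pl m X i (k + 1)).reverse = Wk.g (X i k) :: (Pl m X i k).reverse := by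
  simp [Pl, rowL_succ]

theorem cells_append (r1 r2 : List (List Bool)) : cells (r1 ++ r2) = cells r1 ++ cells r2 := by
  simp [cells]

theorem Pl_u (i : ℕ) : (Pl m X (i + 1) 0).reverse = Wk.vis .u :: (Pl m X i m).reverse := by
  have : rowsL m X (i + 1) = rowsL m X i ++ [rowL X i m] := by simp [rowsL, List.range_succ]
  simp only [Pl, this, cells_append]
  simp [cells, rowL]

theorem PA_Pl (i k : ℕ) : PA (Pl m X i k) := by
  intro a ha
  rcases List.mem_append.1 ha with h | h
  · exact PA_cells _ a h
  · obtain ⟨y, _, rfl⟩ := List.mem_map.1 h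
    exact Or.inl ⟨y, rfl⟩

theorem nuA_append (A B : List Wk) : nuA (A ++ B) = nuA A + nuA B := by
  induction A with
  | nil => simp [nuA]
  | cons a A ih =>
    rcases a with l | l | y | _
    · simpa [nuA] using ih
    · rcases l with b | _ | _ | _
      · simpa [nuA] using ih
      · simp only [List.cons_append, nuA, ih]
        omega
      · simpa [nuA] using ih
      · simpa [nuA] using ih
    · simpa [nuA] using ih
    · simpa [nuA] using ih

theorem nuA_reverse (A : List Wk) : nuA A.reverse = nuA A := by
  induction A with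
  | nil => rfl
  | cons a A ih =>
    have : a :: A = [a] ++ A := rfl
    rw [List.reverse_cons, nuA_append, ih, this, nuA_append]
    omega

theorem nuA_Pl (i k : ℕ) : nuA (Pl m X i k) = i := by
  have h := nuA_g (rowL X i k) []
  rw [List.append_nil] at h
  rw [Pl, nuA_append, nuA_cells, h]
  simp [rowsL, nuA]

theorem PA.reverse {A : List Wk} (h : PA A) : PA A.reverse :=
  fun a ha => h a (List.mem_reverse.1 ha)

theorem OK_PA {A : List Wk} (h : PA A) : OK A := by
  intro a ha l hl
  subst hl
  rcases h _ ha with ⟨y, h⟩ | h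
  · exact absurd h (by simp)
  · exact absurd h (by simp)

theorem OK.cons {a : Wk} {T : List Wk} (h : OK T) (ha : ∀ l, a ≠ Wk.raw l) : OK (a :: T) := by
  intro b hb l
  rcases List.mem_cons.1 hb with rfl | hb
  · exact ha l
  · exact h b hb l

theorem wr_ok (e : ES) (l l' : Ltr) : wr m X e l ≠ Wk.raw l' := by
  unfold wr
  split <;> (try split_ifs) <;> simp

end lists

section long

variable {m : ℕ} {strict : Prop} {n : ℕ} {X : ℕ → ℕ → Bool} {T : List Wk} {v : List Ltr} {l : Ltr}
  {c : Cfg (witU m)} {t : Tag} {k : ℕ}

theorem sit_of {e : ES} {c' : Cfg (witU m)} (h : AtR n t k T [] v c') (hr : Rep m t k e)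
    (hi : Inv m X e T) (ho : OK T) : Sit n X e T v c' := by
  have h1 := h.st
  have h2 := h.nu
  subst h1
  subst h2
  exact ⟨hr, hi, ho, h⟩

theorem tr_N (i : Option (Ctx × Bool)) (fl : Bool) (k : ℕ) (l : Ltr) :
    tr m (.N i fl) k (.sym (.raw l)) = front m i fl k l := rfl

theorem tr_rep {x f st : Bool} {i k' : ℕ} (h : Rep m t k' (.n x f st i k)) (l : Ltr) :
    tr m t k' (.sym (.raw l)) = front m (some ((x, f), st)) (decide (i = m)) k l := by
  obtain ⟨h1, h2⟩ := h
  subst h2
  rcases h1 with rfl | ⟨h1, rfl⟩
  · rfl
  · rw [decide_eq_false h1]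
    rfl

/-- The guess is not used. -/
def NoGuess (m : ℕ) : ES → Ltr → Prop
  | .p i k, .bit _ => i = m ∨ k = m
  | _, _ => True

theorem next_p (hm : 1 ≤ m) {i k : ℕ} (h : Sit n X (.p i k) T (l :: v) c)
    (hg : NoGuess m (.p i k) l) :
    ∃ c', Det strict n c c' ∧
      Sit n X (stp m X (.p i k) l) (wr m X (.p i k) l :: T) v c' := by
  obtain ⟨⟨hr1, hr2⟩, hi, ho, ha⟩ := h
  rw [hr1, hr2] at ha
  obtain ⟨hT, hi1, hk1, hik⟩ := hi
  have hok : OK (wr m X (.p i k) l :: T) := ho.cons (wr_ok _ _)
  rcases l with b | _ | _ | _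
  · have hg' : i = m ∨ k = m := hg
    have hg2 : decide (i = m) = true ∨ k = m := by simpa using hg'
    have he : tr m (.N none (decide (i = m))) k (.sym (.raw (.bit b))) =
        [(.Z, 0, .vis (.bit b), true)] := by
      rw [tr_N]
      simp only [front, if_pos hg2]
      rfl
    obtain ⟨c', h1, h2⟩ := detF (strict := strict) ha he (Nat.zero_le _)
    refine ⟨c', h1, ?_⟩
    simp only [stp, wr, if_pos hg'] at hok ⊢
    exact sit_of h2 rfl trivial hok
  · by_cases hc : i = m ∨ k ≠ m
    · have hc2 : decide (i = m) = true ∨ k ≠ m := by simpa using hc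
      have he : tr m (.N none (decide (i = m))) k (.sym (.raw .u)) = [(.Z, 0, .vis .u, true)] := by
        rw [tr_N]
        simp only [front, if_pos hc2]
        rfl
      obtain ⟨c', h1, h2⟩ := detF (strict := strict) ha he (Nat.zero_le _)
      refine ⟨c', h1, ?_⟩
      simp only [stp, wr, if_pos hc] at hok ⊢
      exact sit_of h2 rfl trivial hok
    · have hc2 : ¬ (decide (i = m) = true ∨ k ≠ m) := by simpa using hc
      have he : tr m (.N none (decide (i = m))) k (.sym (.raw .u)) =
          [(.Lu none, 1, .vis .u, false)] := by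
        rw [tr_N]
        simp only [front, if_neg hc2]
      push Not at hc
      obtain ⟨hc3, rfl⟩ := hc
      obtain ⟨c1, h1, h2⟩ := detFL (strict := strict) ha he hm
      have hn : nuR T = i := by
        rw [hT, nuR_PA (PA_Pl _ _).reverse, nuA_reverse, nuA_Pl]
      obtain ⟨c2, h3, h4⟩ := detLu (strict := strict) none T ho (R := [Wk.vis .u])
        (by intro a ha l; simp only [List.mem_singleton] at ha; subst ha; simp) h2
        (by rw [hn]; omega)
      refine ⟨c2, h1.trans h3, ?_⟩
      have e1 : (T.reverse ++ [Wk.vis .u]).reverse = Wk.vis .u :: T := by simp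
      rw [e1, hn] at h4
      have hc4 : ¬ (i = k ∨ k ≠ k) := by
        push Not
        exact ⟨hc3, rfl⟩
      simp only [stp, wr, if_neg hc4] at hok ⊢
      refine sit_of h4 ⟨?_, rfl⟩ ⟨?_, by omega, by omega, fun _ => rfl⟩ hok
      · rw [Nat.add_comm]
      · rw [Pl_u, hT]
  · by_cases hc : i = m
    · have hc2 : decide (i = m) = true := by simpa using hc
      have he : tr m (.N none (decide (i = m))) k (.sym (.raw .s)) =
          [(.N (some ((false, false), true)) false, 0, .mark, true)] := by
        rw [tr_N]
        simp only [front, if_pos hc2]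
      obtain ⟨c', h1, h2⟩ := detF (strict := strict) ha he (Nat.zero_le _)
      refine ⟨c', h1, ?_⟩
      simp only [stp, wr, if_pos hc] at hok ⊢
      refine sit_of h2 ⟨Or.inl ?_, rfl⟩ ⟨[], ?_, rfl, rfl, Nat.zero_le _, Nat.zero_le _,
        fun _ => rfl⟩ hok
      · rw [decide_eq_false (by omega)]
      · rw [hT, hik hc, hc]
        rfl
    · have hc2 : ¬ decide (i = m) = true := by simpa using hc
      have he : tr m (.N none (decide (i = m))) k (.sym (.raw .s)) =
          [(.Z, 0, .vis .s, true)] := by
        rw [tr_N]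
        simp only [front, if_neg hc2]
      obtain ⟨c', h1, h2⟩ := detF (strict := strict) ha he (Nat.zero_le _)
      refine ⟨c', h1, ?_⟩
      simp only [stp, wr, if_neg hc] at hok ⊢
      exact sit_of h2 rfl trivial hok
  · have he : tr m (.N none (decide (i = m))) k (.sym (.raw .q)) = [(.Z, 0, .vis .q, true)] := rfl
    obtain ⟨c', h1, h2⟩ := detF (strict := strict) ha he (Nat.zero_le _)
    exact ⟨c', h1, sit_of h2 rfl trivial hok⟩

theorem bad_some (x f st : Bool) : bad (some ((x, f), st)) = if x = true then .Z else .Y f := by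
  cases x <;> rfl

theorem sit_bad {x f : Bool} {D : List Ltr} {a : Ltr} {c' : Cfg (witU m)}
    (hT : T = D.map Wk.vis ++ Wk.mark :: (Pl m X m 0).reverse) (st : Bool)
    (h : AtR n (bad (some ((x, f), st))) 0 (Wk.vis a :: T) [] v c') (hok : OK (Wk.vis a :: T)) :
    Sit n X (badE x f) (Wk.vis a :: T) v c' := by
  rw [bad_some] at h
  cases x
  · exact sit_of h rfl ⟨a :: D, by rw [hT]; rfl⟩ hok
  · exact sit_of h rfl trivial hok

theorem next_n (hm : 1 ≤ m) {x f st : Bool} {i k : ℕ} (h : Sit n X (.n x f st i k) T (l :: v) c) :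
    ∃ c', Det strict n c c' ∧
      Sit n X (stp m X (.n x f st i k) l) (wr m X (.n x f st i k) l :: T) v c' := by
  obtain ⟨hr, ⟨D, hT, hi, hk, hi1, hk1, hik⟩, ho, ha⟩ := h
  have htr := fun l => tr_rep hr l
  have hr2 := hr.2
  rw [hr2] at ha htr
  have hok : OK (wr m X (.n x f st i k) l :: T) := ho.cons (wr_ok _ _)
  rcases l with b | _ | _ | _
  · by_cases hc : i = m ∨ k = m
    · have hc2 : decide (i = m) = true ∨ k = m := by simpa using hc
      have he := htr (.bit b)
      simp only [front, if_pos hc2] at he
      obtain ⟨c', h1, h2⟩ := detF (strict := strict) ha he (Nat.zero_le _)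
      refine ⟨c', h1, ?_⟩
      simp only [stp, wr, if_pos hc] at hok ⊢
      exact sit_bad hT st h2 hok
    · have hc2 : ¬ (decide (i = m) = true ∨ k = m) := by simpa using hc
      have he := htr (.bit b)
      simp only [front, if_neg hc2] at he
      push Not at hc
      obtain ⟨hc3, hc4⟩ := hc
      have hc5 : ¬ (i = m ∨ k = m) := by
        push Not
        exact ⟨hc3, hc4⟩
      cases st
      · simp only at he
        obtain ⟨c', h1, h2⟩ := detF (strict := strict) ha he (by omega)
        refine ⟨c', h1, ?_⟩
        simp only [stp, wr, if_neg hc5, Bool.false_and] at hok ⊢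
        refine sit_of h2 ⟨Or.inl ?_, rfl⟩ ⟨.bit b :: D, ?_, ?_, ?_, hi1, by omega, fun h =>
          absurd h hc3⟩ hok
        · rw [decide_eq_false hc3]
        · rw [hT]
          rfl
        · simpa [nu] using hi
        · simp only [kb, hk]
      · simp only at he
        obtain ⟨c1, h1, h2⟩ := detFL (strict := strict) ha he hk1
        obtain ⟨c2, h3, h4⟩ := detLb (strict := strict) hk1 T ho h2
        have e1 : T.reverse ++ [Wk.vis (.bit b)] = cells (rowsL m X m) ++
            Wk.mark :: (D.reverse ++ [Ltr.bit b]).map Wk.vis := by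
          rw [hT]
          simp [Pl, rowL]
        have e2 : (D.reverse ++ [Ltr.bit b]).reverse = Ltr.bit b :: D := by simp
        have h5 : kb ((D.reverse ++ [Ltr.bit b]).reverse) ≤ m := by
          rw [e2]
          simp only [kb]
          omega
        rw [e1] at h4
        have h6 : ∀ G ∈ rowsL m X m, G ≠ [] := by
          intro G hG
          obtain ⟨r, _, rfl⟩ := List.mem_map.1 hG
          intro h0
          have := congrArg List.length h0
          simp [rowL] at this
          omega
        obtain ⟨c3, h7, h8⟩ := det1 (strict := strict) h5 hk1 (z := X i k) (rowsL m X m) h6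
          (i := i) (G := rowL X i m) h4 (by
            simp only [rowsL, List.getElem?_map]
            rw [List.getElem?_range (by omega)]
            rfl) (by
            simp only [rowL, List.getElem?_map]
            rw [List.getElem?_range (by omega)]
            rfl) (by
            rw [e2]
            simp only [rowsL, List.length_map, List.length_range, nu]
            omega)
        refine ⟨c3, h1.trans (h3.trans h7), ?_⟩
        rw [← e1, e2] at h8
        have e3 : (T.reverse ++ [Wk.vis (.bit b)]).reverse ++ [] = Wk.vis (.bit b) :: T := by simp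
        rw [e3] at h8
        simp only [stp, wr, if_neg hc5, Bool.true_and] at hok ⊢
        refine sit_of h8 ⟨Or.inr ⟨hc3, rfl⟩, ?_⟩ ⟨.bit b :: D, ?_, ?_, ?_, hi1, by omega, fun h =>
          absurd h hc3⟩ hok
        · simp only [kb, hk]
        · rw [hT]
          rfl
        · simpa [nu] using hi
        · simp only [kb, hk]
  · by_cases hc : i = m ∨ k ≠ m
    · have hc2 : decide (i = m) = true ∨ k ≠ m := by simpa using hc
      have he := htr .u
      simp only [front, if_pos hc2] at he
      obtain ⟨c', h1, h2⟩ := detF (strict := strict) ha he (Nat.zero_le _)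
      refine ⟨c', h1, ?_⟩
      simp only [stp, wr, if_pos hc] at hok ⊢
      exact sit_bad hT st h2 hok
    · have hc2 : ¬ (decide (i = m) = true ∨ k ≠ m) := by simpa using hc
      have he := htr .u
      simp only [front, if_neg hc2] at he
      have hc5 := hc
      push Not at hc
      obtain ⟨hc3, hc4⟩ := hc
      obtain ⟨c1, h1, h2⟩ := detFL (strict := strict) ha he hm
      have hn : nuR T = i := by
        rw [hT, nuR_vis, hi]
      obtain ⟨c2, h3, h4⟩ := detLu (strict := strict) (some ((x, f), st)) T ho (R := [Wk.vis .u])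
        (by intro a ha l; simp only [List.mem_singleton] at ha; subst ha; simp) h2
        (by rw [hn]; omega)
      refine ⟨c2, h1.trans h3, ?_⟩
      have e1 : (T.reverse ++ [Wk.vis .u]).reverse = Wk.vis .u :: T := by simp
      rw [e1, hn] at h4
      simp only [stp, wr, if_neg hc5] at hok ⊢
      refine sit_of h4 ⟨Or.inl ?_, rfl⟩ ⟨.u :: D, ?_, ?_, rfl, by omega, by omega, fun _ => rfl⟩ hok
      · rw [Nat.add_comm]
      · rw [hT]
        rfl
      · simp only [nu, hi]
  · have he := htr .s
    cases x
    · simp only [front] at he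
      obtain ⟨c', h1, h2⟩ := detF (strict := strict) ha he (Nat.zero_le _)
      refine ⟨c', h1, ?_⟩
      simp only [stp, wr] at hok ⊢
      refine sit_of h2 ⟨Or.inl ?_, rfl⟩ ⟨.s :: D, ?_, rfl, rfl, by omega, by omega,
        fun _ => rfl⟩ hok
      · rw [decide_eq_false (show ¬ 0 = m by omega)]
      · rw [hT]
        rfl
    · simp only [front] at he
      obtain ⟨c', h1, h2⟩ := detF (strict := strict) ha he (Nat.zero_le _)
      exact ⟨c', h1, sit_of h2 rfl trivial hok⟩
  · have he := htr .q
    cases x
    · simp only [front] at he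
      obtain ⟨c', h1, h2⟩ := detF (strict := strict) ha he (Nat.zero_le _)
      refine ⟨c', h1, ?_⟩
      simp only [stp, wr] at hok ⊢
      refine sit_of h2 ⟨Or.inl ?_, rfl⟩ ⟨.q :: D, ?_, rfl, rfl, by omega, by omega,
        fun _ => rfl⟩ hok
      · rw [decide_eq_false (show ¬ 0 = m by omega)]
      · rw [hT]
        rfl
    · simp only [front] at he
      obtain ⟨c', h1, h2⟩ := detF (strict := strict) ha he (Nat.zero_le _)
      exact ⟨c', h1, sit_of h2 rfl trivial hok⟩

theorem next_y (hm : 1 ≤ m) {f : Bool} (h : Sit n X (.y f) T (l :: v) c) :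
    ∃ c', Det strict n c c' ∧ Sit n X (stp m X (.y f) l) (wr m X (.y f) l :: T) v c' := by
  obtain ⟨hr, ⟨D, hT⟩, ho, ha⟩ := h
  have hr' : c.state.1 = .Y f := hr
  rw [hr'] at ha
  have hok : OK (wr m X (.y f) l :: T) := ho.cons (wr_ok _ _)
  rcases l with b | _ | _ | _
  · obtain ⟨c', h1, h2⟩ := detF (strict := strict) (t' := .Y f) (k' := 0) (w := .vis (.bit b)) ha
      rfl (Nat.zero_le _)
    exact ⟨c', h1, sit_of h2 rfl ⟨.bit b :: D, by rw [hT]; rfl⟩ hok⟩
  · obtain ⟨c', h1, h2⟩ := detF (strict := strict) (t' := .Y f) (k' := 0) (w := .vis .u) ha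
      rfl (Nat.zero_le _)
    exact ⟨c', h1, sit_of h2 rfl ⟨.u :: D, by rw [hT]; rfl⟩ hok⟩
  · obtain ⟨c', h1, h2⟩ := detF (strict := strict) (t' := .N (some ((false, f), true)) false)
      (k' := 0) (w := .vis .s) ha rfl (Nat.zero_le _)
    refine ⟨c', h1, sit_of h2 ⟨Or.inl ?_, rfl⟩ ⟨.s :: D, by rw [hT]; rfl, rfl, rfl,
      Nat.zero_le _, Nat.zero_le _, fun _ => rfl⟩ hok⟩
    rw [decide_eq_false (show ¬ 0 = m by omega)]
  · obtain ⟨c', h1, h2⟩ := detF (strict := strict) (t' := .N (some ((true, f), true)) false)
      (k' := 0) (w := .vis .q) ha rfl (Nat.zero_le _)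
    refine ⟨c', h1, sit_of h2 ⟨Or.inl ?_, rfl⟩ ⟨.q :: D, by rw [hT]; rfl, rfl, rfl,
      Nat.zero_le _, Nat.zero_le _, fun _ => rfl⟩ hok⟩
    rw [decide_eq_false (show ¬ 0 = m by omega)]

theorem next_z (h : Sit n X .z T (l :: v) c) :
    ∃ c', Det strict n c c' ∧ Sit n X (stp m X .z l) (wr m X .z l :: T) v c' := by
  obtain ⟨hr, _, ho, ha⟩ := h
  have hr' : c.state.1 = .Z := hr
  rw [hr'] at ha
  obtain ⟨c', h1, h2⟩ := detF (strict := strict) (t' := .Z) (k' := 0) (w := .vis l) ha
    rfl (Nat.zero_le _)
  exact ⟨c', h1, sit_of h2 rfl trivial (ho.cons (wr_ok (X := X) (m := m) .z l))⟩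

/-- A step without a guess. -/
theorem next (hm : 1 ≤ m) {e : ES} (h : Sit n X e T (l :: v) c) (hg : NoGuess m e l) :
    ∃ c', Det strict n c c' ∧ Sit n X (stp m X e l) (wr m X e l :: T) v c' := by
  rcases e with ⟨i, k⟩ | ⟨x, f, st, i, k⟩ | f | _
  · exact next_p hm h hg
  · exact next_n hm h
  · exact next_y hm h
  · exact next_z h

/-- A step with a guess. -/
theorem guess {i k : ℕ} {b : Bool} (h : Sit n X (.p i k) T (.bit b :: v) c)
    (hg : ¬ (i = m ∨ k = m)) :
    (∀ c', Step strict n c c' → ∃ y, c' = nx c (.N none false, k + 1, .g y, true)) ∧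
    (∀ y, Step strict n c (nx c (.N none false, k + 1, .g y, true))) ∧
    ∀ y, Sit n (Function.update X i (Function.update (X i) k y)) (.p i (k + 1)) (.g y :: T) v
      (nx c (.N none false, k + 1, .g y, true)) := by
  obtain ⟨⟨hr1, hr2⟩, ⟨hT, hi1, hk1, hik⟩, ho, ha⟩ := h
  rw [hr1, hr2] at ha
  have hg2 : ¬ (decide (i = m) = true ∨ k = m) := by simpa using hg
  push Not at hg
  have he : tr m (.N none (decide (i = m))) k (.sym (.raw (.bit b))) =
      [(.N none false, k + 1, .g false, true), (.N none false, k + 1, .g true, true)] := by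
    rw [tr_N]
    simp only [front, if_neg hg2]
  refine ⟨?_, ?_, ?_⟩
  · intro c' hs
    obtain ⟨e, h1, h2, rfl⟩ := step_inv hs
    rw [ha.st, ha.nu, ha.read_new, he] at h1
    rcases List.mem_cons.1 h1 with rfl | h1
    · exact ⟨false, rfl⟩
    · have := List.mem_singleton.1 h1
      subst this
      exact ⟨true, rfl⟩
  · intro y
    refine sF ha ?_ (by omega)
    rw [he]
    cases y <;> simp
  · intro y
    have h1 := nxF (t' := .N none false) (k' := k + 1) (w := .g y) ha (by omega)
    refine sit_of h1 ⟨?_, rfl⟩ ⟨?_, hi1, by omega, fun h => absurd h hg.1⟩ (ho.cons (by simp))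
    · rw [decide_eq_false hg.1]
    · rw [Pl_bit, Function.update_self, Function.update_self, hT]
      congr 2
      unfold Pl
      congr 1
      · unfold rowsL
        congr 1
        apply List.map_congr_left
        intro r hr
        have : r ≠ i := by
          have := List.mem_range.1 hr
          omega
        simp only [rowL, Function.update_of_ne this]
      · unfold rowL
        rw [Function.update_self]
        congr 1
        apply List.map_congr_left
        intro r hr
        have : r ≠ k := by
          have := List.mem_range.1 hr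
          omega
        rw [Function.update_of_ne this]

open Classical in
/-- The answer at the end of the input. -/
noncomputable def ans (m : ℕ) (e : ES) (T : List Wk) : Option Bool :=
  match e with
  | .n true f st i _ =>
    if i = m then (if st = true then some f else none)
    else if Wk.g true ∈ T then none else some false
  | _ => if Wk.g true ∈ T then none else some false

/-- The canonical check at the end. -/
theorem canon (h : AtR n t k T [] [] c) (he : tr m t k .rm = [(.Lz, 0, .mark, false)])
    (ho : OK T) :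
    (Wk.g true ∉ T → ∃ c', Det strict n c c' ∧ End n c' ∧ c'.state.1 = .E false) ∧
    (Wk.g true ∈ T → ¬ Alive strict n c) := by
  obtain ⟨c1, h1, h2⟩ := detrm (strict := strict) h he (Nat.zero_le _)
  refine ⟨?_, ?_⟩
  · intro hg
    obtain ⟨c2, h3, h4⟩ := detLz (strict := strict) T ho hg h2
    have ho' : OK (T.reverse ++ []) := by
      intro a ha
      simp only [List.append_nil, List.mem_reverse] at ha
      exact ho a ha
    obtain ⟨c3, h5, h6⟩ := detC (strict := strict) _ ho' h4
    obtain ⟨c4, h7, h8, h9⟩ := detend (strict := strict) (b := false) (w := .mark) h6 rfl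
    exact ⟨c4, h1.trans (h3.trans (h5.trans h7)), h8, h9⟩
  · intro hg hal
    exact aliveLz T h2 ((alive_det h1).1 hal) hg

theorem final {e : ES} (h : Sit n X e T [] c) :
    (∀ b, ans m e T = some b → ∃ c', Det strict n c c' ∧ End n c' ∧ c'.state.1 = .E b) ∧
    (ans m e T = none → ¬ Alive strict n c) := by
  have hcan : tr m c.state.1 c.state.2.val .rm = [(.Lz, 0, .mark, false)] →
      (∀ b, (open Classical in if Wk.g true ∈ T then none else some false) = some b →
        ∃ c', Det strict n c c' ∧ End n c' ∧ c'.state.1 = .E b) ∧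
      ((open Classical in if Wk.g true ∈ T then (none : Option Bool) else some false) = none →
        ¬ Alive strict n c) := by
    intro he
    have h1 := canon (strict := strict) h.at' he h.ok
    by_cases hg : Wk.g true ∈ T
    · simp only [if_pos hg]
      exact ⟨fun b hb => absurd hb (by simp), fun _ => h1.2 hg⟩
    · simp only [if_neg hg]
      refine ⟨fun b hb => ?_, fun hb => absurd hb (by simp)⟩
      have : b = false := by
        simp only [Option.some.injEq] at hb
        exact hb.symm
      rw [this]
      exact h1.1 hg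
  obtain ⟨hr, hi, ho, ha⟩ := h
  rcases e with ⟨i, k⟩ | ⟨x, f, st, i, k⟩ | f | _
  · apply hcan
    rw [hr.1]
    rfl
  · cases x
    · apply hcan
      rcases hr.1 with h1 | ⟨_, h1⟩
      · rw [h1]
        rfl
      · rw [h1]
        rfl
    · by_cases him : i = m
      · have h1 : c.state.1 = .N (some ((true, f), st)) true := by
          rcases hr.1 with h1 | ⟨h1, _⟩
          · rw [h1, decide_eq_true him]
          · exact absurd him h1
        rw [h1] at ha
        cases st
        · refine ⟨?_, ?_⟩
          · intro b hb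
            simp only [ans, if_pos him] at hb
            exact absurd hb (by simp)
          · intro _ hal
            obtain ⟨e, he, _⟩ := AtR.alive_rm ha hal
            exact absurd he List.not_mem_nil
        · refine ⟨?_, ?_⟩
          · intro b hb
            simp only [ans, if_pos him, if_true, Option.some.injEq] at hb
            subst hb
            exact detend (strict := strict) (w := .mark) ha rfl
          · intro hb
            simp only [ans, if_pos him, if_true] at hb
            exact absurd hb (by simp)
      · have h2 : tr m c.state.1 c.state.2.val .rm = [(.Lz, 0, .mark, false)] := by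
          rcases hr.1 with h1 | ⟨_, h1⟩
          · rw [h1, decide_eq_false him]
            cases st <;> rfl
          · rw [h1]
            rfl
        have h3 := hcan h2
        simp only [ans, if_neg him]
        exact h3
  · apply hcan
    have hr' : c.state.1 = .Y f := hr
    rw [hr']
    rfl
  · apply hcan
    have hr' : c.state.1 = .Z := hr
    rw [hr']
    rfl

end long

end Pool.Agent.U593.UL
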