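import Mathlib
import Pool.Agent.U593.UL.Mac

set_option autoImplicit false

/-! # Exactly one computation answers -/

namespace Pool.Agent.U593.UL

open Pool.Agent.H630R2.LA Relation
open Pool.Agent.TH705.LB (Ltr)

variable {m : ℕ} {strict : Prop} {n : ℕ}

/-- The evaluation and the content of the tape. -/
def go (m : ℕ) (X : ℕ → ℕ → Bool) : ES → List Wk → List Ltr → ES × List Wk
  | e, T, [] => (e, T)
  | e, T, l :: v => go m X (stp m X e l) (wr m X e l :: T) v

/-- The answer with the guess `X`. -/
noncomputable def Ans (m : ℕ) (X : ℕ → ℕ → Bool) (e : ES) (T : List Wk) (v : List Ltr) :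
    Option Bool := ans m (go m X e T v).1 (go m X e T v).2

/-- In the first block. -/
def isP : ES → Prop
  | .p _ _ => True
  | _ => False

theorem not_isP_stp {X : ℕ → ℕ → Bool} {e : ES} (h : ¬ isP e) (l : Ltr) : ¬ isP (stp m X e l) := by
  rcases e with ⟨i, k⟩ | ⟨_ | _, f, st, i, k⟩ | f | _
  · exact absurd trivial h
  all_goals rcases l with b | _ | _ | _ <;> simp only [stp] <;> (try split_ifs) <;>
    (try simp only [badE]) <;> (try split_ifs) <;> exact fun h => h

/-- After the first block everything is forced. -/
theorem det_rest (hm : 1 ≤ m) {X : ℕ → ℕ → Bool} (v : List Ltr) : ∀ {e : ES} {T : List Wk}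
    {c : Cfg (witU m)}, ¬ isP e → Sit n X e T v c →
      ∃ c', Det strict n c c' ∧ Sit n X (go m X e T v).1 (go m X e T v).2 [] c' := by
  induction v with
  | nil => intro e T c _ h; exact ⟨c, ReflTransGen.refl, h⟩
  | cons l v ih =>
    intro e T c he h
    have hg : NoGuess m e l := by
      rcases e with ⟨i, k⟩ | ⟨x, f, st, i, k⟩ | f | _
      · exact absurd trivial he
      all_goals trivial
    obtain ⟨c1, h1, h2⟩ := next (strict := strict) hm h hg
    obtain ⟨c2, h3, h4⟩ := ih (not_isP_stp he l) h2
    exact ⟨c2, h1.trans h3, h4⟩

/-- Two guesses with the same values in the part of the first block which has been visited. -/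
def Agree (m : ℕ) (X X' : ℕ → ℕ → Bool) (i k : ℕ) : Prop :=
  ∀ a c, (a < i ∧ c < m) ∨ (a = i ∧ c < k) → X a c = X' a c

theorem sit_congr {X X' : ℕ → ℕ → Bool} {i k : ℕ} {T : List Wk} {v : List Ltr}
    {c : Cfg (witU m)} (h : Sit n X (.p i k) T v c) (ha : Agree m X X' i k) :
    Sit n X' (.p i k) T v c := by
  obtain ⟨hr, ⟨hT, hi⟩, ho, hat⟩ := h
  refine ⟨hr, ⟨?_, hi⟩, ho, hat⟩
  rw [hT]
  congr 1
  unfold Pl
  congr 1
  · unfold rowsL
    congr 1
    apply List.map_congr_left
    intro r hr
    have := List.mem_range.1 hr
    unfold rowL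
    apply List.map_congr_left
    intro c hc
    exact ha r c (Or.inl ⟨this, List.mem_range.1 hc⟩)
  · unfold rowL
    congr 1
    apply List.map_congr_left
    intro c hc
    exact ha i c (Or.inr ⟨rfl, List.mem_range.1 hc⟩)

/-- For every guess there is a path to the end of the input. -/
theorem steps_all (hm : 1 ≤ m) {X : ℕ → ℕ → Bool} (v : List Ltr) : ∀ {e : ES} {T : List Wk}
    {c : Cfg (witU m)}, Sit n X e T v c →
      ∃ c', ReflTransGen (Step strict n) c c' ∧
        Sit n X (go m X e T v).1 (go m X e T v).2 [] c' := by
  classical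
  induction v with
  | nil => intro e T c h; exact ⟨c, ReflTransGen.refl, h⟩
  | cons l v ih =>
    intro e T c h
    by_cases hg : NoGuess m e l
    · obtain ⟨c1, h1, h2⟩ := next (strict := strict) hm h hg
      obtain ⟨c2, h3, h4⟩ := ih h2
      exact ⟨c2, h1.steps.trans h3, h4⟩
    · rcases e with ⟨i, k⟩ | ⟨x, f, st, i, k⟩ | f | _
      · rcases l with b | _ | _ | _
        · have hg' : ¬ (i = m ∨ k = m) := hg
          obtain ⟨_, h2, h3⟩ := guess (strict := strict) h hg'
          have h4 := h3 (X i k)
          have e1 : Function.update X i (Function.update (X i) k (X i k)) = X := by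
            rw [Function.update_eq_self, Function.update_eq_self]
          rw [e1] at h4
          obtain ⟨c2, h5, h6⟩ := ih h4
          refine ⟨c2, ReflTransGen.head (h2 (X i k)) h5, ?_⟩
          simp only [go, stp, wr, if_neg hg']
          exact h6
        · exact absurd trivial hg
        · exact absurd trivial hg
        · exact absurd trivial hg
      · exact absurd trivial hg
      · exact absurd trivial hg
      · exact absurd trivial hg

/-- An alive configuration in the first block: some guess which extends the bits guessed so far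
leads to an answer. -/
theorem alive_ans (hm : 1 ≤ m) (v : List Ltr) : ∀ {X : ℕ → ℕ → Bool} {e : ES}
    {T : List Wk} {c : Cfg (witU m)}, Sit n X e T v c → Alive strict n c →
      ∃ X', (∀ i k, e = .p i k → Agree m X X' i k) ∧ (¬ isP e → X' = X) ∧
        Ans m X' e T v ≠ none := by
  classical
  induction v with
  | nil =>
    intro X e T c h hal
    exact ⟨X, fun _ _ _ _ _ _ => rfl, fun _ => rfl, fun h' => (final h).2 h' hal⟩
  | cons l v ih =>
    intro X e T c h hal
    by_cases hg : NoGuess m e l
    · obtain ⟨c1, h1, h2⟩ := next (strict := strict) hm h hg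
      obtain ⟨X', h3, h4, h5⟩ := ih h2 ((alive_det h1).1 hal)
      rcases e with ⟨i, k⟩ | ⟨x, f, st, i, k⟩ | f | _
      · by_cases hP : isP (stp m X (.p i k) l)
        · obtain ⟨i', k', he'⟩ : ∃ i' k', stp m X (.p i k) l = .p i' k' := by
            generalize stp m X (.p i k) l = e' at hP
            rcases e' with ⟨i', k'⟩ | _ | _ | _
            · exact ⟨i', k', rfl⟩
            all_goals exact absurd hP id
          have h6 := h3 i' k' he'
          have hsame : stp m X' (.p i k) l = stp m X (.p i k) l ∧
              wr m X' (.p i k) l = wr m X (.p i k) l := by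
            rcases l with b | _ | _ | _
            · have hg' : i = m ∨ k = m := hg
              simp only [stp, wr, if_pos hg', and_self]
            all_goals exact ⟨rfl, rfl⟩
          refine ⟨X', ?_, fun h => absurd trivial h, ?_⟩
          · intro a b hab
            simp only [ES.p.injEq] at hab
            obtain ⟨rfl, rfl⟩ := hab
            rcases l with b | _ | _ | _
            · have hg' : i = m ∨ k = m := hg
              simp only [stp, if_pos hg'] at he'
              exact absurd he' (by simp)
            · simp only [stp] at he'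
              split_ifs at he' with hc
              push Not at hc
              simp only [ES.p.injEq] at he'
              obtain ⟨rfl, rfl⟩ := he'
              intro a c hac
              refine h6 a c (Or.inl ?_)
              rcases hac with ⟨h7, h8⟩ | ⟨h7, h8⟩
              · exact ⟨by omega, h8⟩
              · exact ⟨by omega, by omega⟩
            · simp only [stp] at he'
              split_ifs at he'
            · simp only [stp] at he'
              exact absurd he' (by simp)
          · show Ans m X' (stp m X' (.p i k) l) (wr m X' (.p i k) l :: T) v ≠ none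
            rw [hsame.1, hsame.2]
            exact h5
        · have hX := h4 hP
          subst hX
          exact ⟨X', fun _ _ _ _ _ _ => rfl, fun _ => rfl, h5⟩
      all_goals
        have hX : X' = X := by
          apply h4
          apply not_isP_stp
          exact fun h => h
        subst hX
        exact ⟨X', fun _ _ _ _ _ _ => rfl, fun _ => rfl, h5⟩
    · rcases e with ⟨i, k⟩ | ⟨x, f, st, i, k⟩ | f | _
      · rcases l with b | _ | _ | _
        · have hg' : ¬ (i = m ∨ k = m) := hg
          obtain ⟨h1, _, h3⟩ := guess (strict := strict) h hg'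
          obtain ⟨c', h4, h5⟩ := hal.next (h.at'.pos_le le_rfl)
          obtain ⟨y, rfl⟩ := h1 c' h4
          obtain ⟨X', h6, _, h8⟩ := ih (h3 y) h5
          have h9 := h6 i (k + 1) rfl
          have hy : X' i k = y := by
            rw [← h9 i k (Or.inr ⟨rfl, by omega⟩), Function.update_self, Function.update_self]
          refine ⟨X', ?_, fun h => absurd trivial h, ?_⟩
          · intro i' k' hik
            simp only [ES.p.injEq] at hik
            obtain ⟨rfl, rfl⟩ := hik
            intro a c hac
            rw [← h9 a c ?_]
            · rcases hac with ⟨h10, h11⟩ | ⟨h10, h11⟩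
              · rw [Function.update_of_ne (by omega)]
              · subst h10
                rw [Function.update_self, Function.update_of_ne (by omega)]
            · rcases hac with ⟨h10, h11⟩ | ⟨h10, h11⟩
              · exact Or.inl ⟨h10, h11⟩
              · exact Or.inr ⟨h10, by omega⟩
          · show Ans m X' (stp m X' (.p i k) (.bit b))
              (wr m X' (.p i k) (.bit b) :: T) v ≠ none
            simp only [stp, wr, if_neg hg', hy]
            exact h8
        · exact absurd trivial hg
        · exact absurd trivial hg
        · exact absurd trivial hg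
      · exact absurd trivial hg
      · exact absurd trivial hg
      · exact absurd trivial hg

/-- Two evaluations of the same input: the same shape; and if both matrices agree with the current
block then they agree with each other. -/
def Lock (m : ℕ) (X X' : ℕ → ℕ → Bool) : ES → ES → Prop
  | .p i k, .p i' k' => i = i' ∧ k = k'
  | .n x _ st i k, .n x' _ st' i' k' => x = x' ∧ i = i' ∧ k = k' ∧
      (st = true → st' = true → Agree m X X' i k)
  | .y _, .y _ => True
  | .z, .z => True
  | _, _ => False

theorem Agree.bit {X X' : ℕ → ℕ → Bool} {i k : ℕ} (h : Agree m X X' i k) (h' : X i k = X' i k) :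
    Agree m X X' i (k + 1) := by
  intro a c hac
  rcases hac with h1 | ⟨h1, h2⟩
  · exact h a c (Or.inl h1)
  · rcases Nat.lt_or_ge c k with h3 | h3
    · exact h a c (Or.inr ⟨h1, h3⟩)
    · have : c = k := by omega
      rw [h1, this]
      exact h'

theorem Agree.u {X X' : ℕ → ℕ → Bool} {i : ℕ} (h : Agree m X X' i m) :
    Agree m X X' (i + 1) 0 := by
  intro a c hac
  rcases hac with ⟨h1, h2⟩ | ⟨_, h2⟩
  · rcases Nat.lt_or_ge a i with h3 | h3
    · exact h a c (Or.inl ⟨h3, h2⟩)
    · exact h a c (Or.inr ⟨by omega, h2⟩)
  · omega

theorem Agree.start {X X' : ℕ → ℕ → Bool} : Agree m X X' 0 0 := by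
  intro a c hac
  omega

theorem lock_stp {X X' : ℕ → ℕ → Bool} {e e' : ES} (h : Lock m X X' e e') (l : Ltr) :
    Lock m X X' (stp m X e l) (stp m X' e' l) := by
  rcases e with ⟨i, k⟩ | ⟨x, f, st, i, k⟩ | f | _ <;>
    rcases e' with ⟨i', k'⟩ | ⟨x', f', st', i', k'⟩ | f' | _ <;>
    first
    | exact absurd h id
    | skip
  · obtain ⟨rfl, rfl⟩ := h
    rcases l with b | _ | _ | _
    · simp only [stp]
      split_ifs
      · trivial
      · exact ⟨rfl, rfl⟩
    · simp only [stp]
      split_ifs
      · trivial
      · exact ⟨rfl, rfl⟩
    · simp only [stp]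
      split_ifs
      · exact ⟨rfl, rfl, rfl, fun _ _ => Agree.start⟩
      · trivial
    · trivial
  · obtain ⟨rfl, rfl, rfl, h4⟩ := h
    rcases l with b | _ | _ | _
    · simp only [stp]
      split_ifs with hc
      · cases x <;> trivial
      · refine ⟨rfl, rfl, rfl, ?_⟩
        intro h5 h6
        simp only [Bool.and_eq_true, beq_iff_eq] at h5 h6
        exact (h4 h5.1 h6.1).bit (by rw [h5.2, h6.2])
    · simp only [stp]
      split_ifs with hc
      · cases x <;> trivial
      · push Not at hc
        obtain ⟨_, rfl⟩ := hc
        exact ⟨rfl, rfl, rfl, fun h5 h6 => (h4 h5 h6).u⟩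
    · cases x
      · exact ⟨rfl, rfl, rfl, fun _ _ => Agree.start⟩
      · trivial
    · cases x
      · exact ⟨rfl, rfl, rfl, fun _ _ => Agree.start⟩
      · trivial
  · rcases l with b | _ | _ | _
    · trivial
    · trivial
    · exact ⟨rfl, rfl, rfl, fun _ _ => Agree.start⟩
    · exact ⟨rfl, rfl, rfl, fun _ _ => Agree.start⟩
  · trivial

theorem lock_go {X X' : ℕ → ℕ → Bool} (v : List Ltr) : ∀ {e e' : ES} {T T' : List Wk},
    Lock m X X' e e' → Lock m X X' (go m X e T v).1 (go m X' e' T' v).1 := by
  induction v with
  | nil => intro e e' T T' h; exact h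
  | cons l v ih => intro e e' T T' h; exact ih (lock_stp h l)

theorem go_mono {X : ℕ → ℕ → Bool} (v : List Ltr) : ∀ {e : ES} {T : List Wk} {a : Wk},
    a ∈ T → a ∈ (go m X e T v).2 := by
  induction v with
  | nil => intro e T a h; exact h
  | cons l v ih => intro e T a h; exact ih (List.mem_cons_of_mem _ h)

/-- The guessed bits are determined by the input. -/
theorem ans_unique {X X' : ℕ → ℕ → Bool} {e e' : ES} {T T' : List Wk} {v : List Ltr}
    (h : Lock m X X' e e') {i k : ℕ} (hi : i < m) (hk : k < m)
    (hT : Wk.g (X i k) ∈ T) (hT' : Wk.g (X' i k) ∈ T')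
    (ha : Ans m X e T v ≠ none) (ha' : Ans m X' e' T' v ≠ none) : X i k = X' i k := by
  have h1 := lock_go (T := T) (T' := T') v h
  have h2 := go_mono (m := m) (X := X) v (e := e) hT
  have h3 := go_mono (m := m) (X := X') v (e := e') hT'
  unfold Ans at ha ha'
  generalize (go m X e T v).1 = e1 at h1 ha
  generalize (go m X' e' T' v).1 = e2 at h1 ha'
  generalize (go m X e T v).2 = T1 at h2 ha
  generalize (go m X' e' T' v).2 = T2 at h3 ha'
  have hcan : ∀ {Y : ℕ → ℕ → Bool} {S : List Wk}, Wk.g (Y i k) ∈ S → Wk.g true ∉ S →
      Y i k = false := by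
    intro Y S h4 h5
    rcases hY : Y i k with _ | _
    · rfl
    · rw [hY] at h4
      exact absurd h4 h5
  have hfin : Wk.g true ∉ T1 → Wk.g true ∉ T2 → X i k = X' i k := by
    intro h4 h5
    rw [hcan h2 h4, hcan h3 h5]
  rcases e1 with ⟨i1, k1⟩ | ⟨_ | _, f1, st1, i1, k1⟩ | f1 | _ <;>
    rcases e2 with ⟨i2, k2⟩ | ⟨_ | _, f2, st2, i2, k2⟩ | f2 | _ <;>
    first
    | exact absurd h1 id
    | exact absurd h1.1 Bool.false_ne_true
    | exact absurd h1.1.symm Bool.false_ne_true
    | skip
  · simp only [ans, ne_eq, ite_eq_left_iff, reduceCtorEq, imp_false, not_not] at ha ha'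
    exact hfin ha ha'
  · simp only [ans, ne_eq, ite_eq_left_iff, reduceCtorEq, imp_false, not_not] at ha ha'
    exact hfin ha ha'
  · obtain ⟨_, rfl, rfl, h4⟩ := h1
    by_cases him : i1 = m
    · simp only [ans, if_pos him] at ha ha'
      have hs1 : st1 = true := by
        rcases st1 with _ | _
        · exact absurd rfl ha
        · rfl
      have hs2 : st2 = true := by
        rcases st2 with _ | _
        · exact absurd rfl ha'
        · rfl
      exact h4 hs1 hs2 i k (Or.inl ⟨by omega, hk⟩)
    · simp only [ans, if_neg him, ne_eq, ite_eq_left_iff, reduceCtorEq, imp_false, not_not] at ha ha'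
      exact hfin ha ha'
  · simp only [ans, ne_eq, ite_eq_left_iff, reduceCtorEq, imp_false, not_not] at ha ha'
    exact hfin ha ha'
  · simp only [ans, ne_eq, ite_eq_left_iff, reduceCtorEq, imp_false, not_not] at ha ha'
    exact hfin ha ha'

/-- At most one computation. -/
theorem uniq_sit (hm : 1 ≤ m) (v : List Ltr) : ∀ {X : ℕ → ℕ → Bool} {e : ES}
    {T : List Wk} {c : Cfg (witU m)}, Sit n X e T v c → Uniq strict n c := by
  classical
  have hfinal : ∀ {X : ℕ → ℕ → Bool} {e : ES} {T : List Wk} {c : Cfg (witU m)},
      Sit n X e T [] c → Uniq strict n c := by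
    intro X e T c h
    rcases ho : ans m e T with _ | b
    · exact uniq_dead ((final h).2 ho)
    · obtain ⟨c', h1, h2, _⟩ := (final (strict := strict) h).1 b ho
      exact uniq_det h1 (uniq_end h2)
  induction v with
  | nil => intro X e T c h; exact hfinal h
  | cons l v ih =>
    intro X e T c h
    by_cases hg : NoGuess m e l
    · obtain ⟨c1, h1, h2⟩ := next (strict := strict) hm h hg
      exact uniq_det h1 (ih h2)
    · rcases e with ⟨i, k⟩ | ⟨x, f, st, i, k⟩ | f | _
      · rcases l with b | _ | _ | _
        · have hg' : ¬ (i = m ∨ k = m) := hg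
          obtain ⟨h1, h2, h3⟩ := guess (strict := strict) h hg'
          obtain ⟨_, hi1, hk1, _⟩ := h.inv
          push Not at hg'
          refine uniq_of ?_ ?_
          · intro c' c'' hc' hc'' ha ha'
            obtain ⟨y, rfl⟩ := h1 c' hc'
            obtain ⟨y', rfl⟩ := h1 c'' hc''
            obtain ⟨X1, h4, _, h5⟩ := alive_ans hm v (h3 y) ha
            obtain ⟨X2, h6, _, h7⟩ := alive_ans hm v (h3 y') ha'
            have e1 : y = X1 i k := by
              rw [← h4 i (k + 1) rfl i k (Or.inr ⟨rfl, by omega⟩), Function.update_self,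
                Function.update_self]
            have e2 : y' = X2 i k := by
              rw [← h6 i (k + 1) rfl i k (Or.inr ⟨rfl, by omega⟩), Function.update_self,
                Function.update_self]
            have h8 : X1 i k = X2 i k := by
              refine ans_unique (e := .p i (k + 1)) (e' := .p i (k + 1)) ⟨rfl, rfl⟩ (by omega)
                (by omega) ?_ ?_ h5 h7
              · rw [← e1]
                exact List.mem_cons_self ..
              · rw [← e2]
                exact List.mem_cons_self ..
            rw [e1, e2, h8]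
          · intro c' hc' _
            obtain ⟨y, rfl⟩ := h1 c' hc'
            exact ih (h3 y)
        · exact absurd trivial hg
        · exact absurd trivial hg
        · exact absurd trivial hg
      · exact absurd trivial hg
      · exact absurd trivial hg
      · exact absurd trivial hg

/-- The entries of the current block. -/
def rec (m : ℕ) : ES → (ℕ → ℕ → Bool) → Ltr → (ℕ → ℕ → Bool)
  | .n _ _ _ i k, Y, .bit b => if i = m ∨ k = m then Y else
      Function.update Y i (Function.update (Y i) k b)
  | _, Y, _ => Y

/-- The entries of the last block. -/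
def last (m : ℕ) : ES → (ℕ → ℕ → Bool) → List Ltr → (ℕ → ℕ → Bool)
  | _, Y, [] => Y
  | e, Y, l :: v => last m (stp m (fun _ _ => false) e l) (rec m e Y l) v

/-- If the guess agrees with the current block then the flag is set. -/
def Hyp (m : ℕ) (X Y : ℕ → ℕ → Bool) : ES → Prop
  | .n _ _ st i k => Agree m X Y i k → st = true
  | _ => True

theorem hyp_last {X : ℕ → ℕ → Bool} (v : List Ltr) : ∀ {e e0 : ES} {T : List Wk}
    {Y : ℕ → ℕ → Bool}, Lock m X (fun _ _ => false) e e0 → Hyp m X Y e →
      Hyp m X (last m e0 Y v) (go m X e T v).1 := by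
  induction v with
  | nil => intro e e0 T Y _ h; exact h
  | cons l v ih =>
    intro e e0 T Y hl h
    refine ih (lock_stp hl l) ?_
    rcases e with ⟨i, k⟩ | ⟨x, f, st, i, k⟩ | f | _ <;>
      rcases e0 with ⟨i', k'⟩ | ⟨x', f', st', i', k'⟩ | f' | _ <;>
      first
      | exact absurd hl id
      | skip
    · rcases l with b | _ | _ | _
      · simp only [stp]
        split_ifs <;> trivial
      · simp only [stp]
        split_ifs <;> trivial
      · simp only [stp]
        split_ifs
        · exact fun _ => rfl
        · trivial
      · trivial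
    · obtain ⟨rfl, rfl, rfl, _⟩ := hl
      rcases l with b | _ | _ | _
      · by_cases hc : i = m ∨ k = m
        · simp only [stp, if_pos hc]
          cases x <;> trivial
        · simp only [stp, rec, if_neg hc]
          intro ha
          have h1 : X i k = b := by
            have := ha i k (Or.inr ⟨rfl, by omega⟩)
            rw [this, Function.update_self, Function.update_self]
          have h2 : Agree m X Y i k := by
            intro a c hac
            have h3 := ha a c (by
              rcases hac with h4 | ⟨h4, h5⟩
              · exact Or.inl h4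
              · exact Or.inr ⟨h4, by omega⟩)
            rw [h3]
            rcases hac with ⟨h4, h5⟩ | ⟨h4, h5⟩
            · rw [Function.update_of_ne (by omega)]
            · rw [h4, Function.update_self, Function.update_of_ne (by omega)]
          rw [h h2, h1]
          simp
      · by_cases hc : i = m ∨ k ≠ m
        · simp only [stp, if_pos hc]
          cases x <;> trivial
        · have hc' := hc
          push Not at hc'
          obtain ⟨_, rfl⟩ := hc'
          simp only [stp, if_neg hc, rec]
          intro ha
          apply h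
          intro a c hac
          apply ha
          rcases hac with ⟨h4, h5⟩ | ⟨h4, h5⟩
          · exact Or.inl ⟨by omega, h5⟩
          · exact Or.inl ⟨by omega, h5⟩
      · cases x
        · exact fun _ => rfl
        · trivial
      · cases x
        · exact fun _ => rfl
        · trivial
    · rcases l with b | _ | _ | _
      · trivial
      · trivial
      · exact fun _ => rfl
      · exact fun _ => rfl
    · trivial

theorem no_true {X : ℕ → ℕ → Bool} (hX : ∀ i k, X i k = false) (v : List Ltr) :
    ∀ {e : ES} {T : List Wk}, Wk.g true ∉ T → Wk.g true ∉ (go m X e T v).2 := by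
  induction v with
  | nil => intro e T h; exact h
  | cons l v ih =>
    intro e T h
    refine ih ?_
    intro h'
    rcases List.mem_cons.1 h' with h' | h'
    · rcases e with ⟨i, k⟩ | ⟨x, f, st, i, k⟩ | f | _ <;> rcases l with b | _ | _ | _ <;>
        simp only [wr] at h' <;> (try split_ifs at h') <;> (try simp [hX] at h')
    · exact h h'

/-- For every input some guess leads to an answer. -/
theorem exists_ans (m : ℕ) (v : List Ltr) : ∃ X b, Ans m X (.p 0 0) [] v = some b := by
  classical
  have h0 : Wk.g true ∉ (go m (fun _ _ => false) (.p 0 0) [] v).2 :=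
    no_true (fun _ _ => rfl) v (by simp)
  set X := last m (.p 0 0) (fun _ _ => false) v with hX
  have hl : Lock m X (fun _ _ => false) (go m X (.p 0 0) [] v).1
      (go m (fun _ _ => false) (.p 0 0) [] v).1 := lock_go v ⟨rfl, rfl⟩
  have hh := hyp_last (m := m) (X := X) v (e := .p 0 0) (e0 := .p 0 0) (T := [])
    (Y := fun _ _ => false) ⟨rfl, rfl⟩ trivial
  rw [← hX] at hh
  rcases he : (go m (fun _ _ => false) (.p 0 0) [] v).1 with
    ⟨i, k⟩ | ⟨_ | _, f, st, i, k⟩ | f | _
  · exact ⟨fun _ _ => false, false, by simp only [Ans, he, ans, if_neg h0]⟩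
  · exact ⟨fun _ _ => false, false, by simp only [Ans, he, ans, if_neg h0]⟩
  · by_cases him : i = m
    · rw [he] at hl
      rcases he' : (go m X (.p 0 0) [] v).1 with ⟨i', k'⟩ | ⟨x', f', st', i', k'⟩ | f' | _
      · rw [he'] at hl
        exact absurd hl id
      · rw [he'] at hl hh
        obtain ⟨rfl, rfl, rfl, _⟩ := hl
        have hst : st' = true := hh (fun _ _ _ => rfl)
        exact ⟨X, f', by simp only [Ans, he', ans, if_pos him, hst, if_true]⟩
      · rw [he'] at hl
        exact absurd hl id
      · rw [he'] at hl
        exact absurd hl id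
    · exact ⟨fun _ _ => false, false, by simp only [Ans, he, ans, if_neg h0, if_neg him]⟩
  · exact ⟨fun _ _ => false, false, by simp only [Ans, he, ans, if_neg h0]⟩
  · exact ⟨fun _ _ => false, false, by simp only [Ans, he, ans, if_neg h0]⟩

/-- The initial configuration. -/
theorem sit_init (hm : 1 ≤ m) (w : List Ltr) (X : ℕ → ℕ → Bool) :
    Sit w.length X (.p 0 0) [] w (init (witU m) w) := by
  refine ⟨⟨?_, rfl⟩, ⟨rfl, Nat.zero_le _, Nat.zero_le _, fun _ => rfl⟩, ?_, ?_⟩
  · rw [decide_eq_false (show ¬ 0 = m by omega)]
    rfl
  · intro a ha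
    exact absurd ha (by simp)
  · refine ⟨rfl, rfl, rfl, ?_, ?_, ?_⟩
    · funext i
      rcases i with _ | i
      · rfl
      · have h1 : (init (witU m) w).tape (i + 1) = initTape (witU m) w (i + 1) := rfl
        rw [h1]
        simp only [initTape, tapeOf, List.reverse_nil, List.nil_append, List.getElem?_map]
        rcases w[i]? with _ | a <;> rfl
    · intro i h1 _
      show i ∈ (∅ : Set ℕ) ↔ _
      simp only [Set.mem_empty_iff_false, List.length_nil, false_iff]
      omega
    · simp

/-- An answer. -/
theorem end_of_ans (hm : 1 ≤ m) {w : List Ltr} {X : ℕ → ℕ → Bool} {b : Bool}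
    (h : Ans m X (.p 0 0) [] w = some b) :
    ∃ c, ReflTransGen (Step strict w.length) (init (witU m) w) c ∧ End w.length c ∧
      c.state.1 = .E b := by
  obtain ⟨c1, h1, h2⟩ := steps_all (strict := strict) hm w (sit_init hm w X)
  obtain ⟨c2, h3, h4, h5⟩ := (final (strict := strict) h2).1 b h
  exact ⟨c2, h1.trans h3.steps, h4, h5⟩

end Pool.Agent.U593.UL
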