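import Mathlib
import Pool.Agent.U593.UL.Uni
import Pool.Agent.U593.UA.Lower
import Pool.Agent.TH705.LB.Lower
import Pool.Agent.Results.MP_0036f5_lc.SelfVerifying

set_option autoImplicit false

/-! # The machine is self-verifying and unambiguous; its language needs large deterministic machines -/

namespace Pool.Agent.U593.UL

open Pool.Agent.H630R2.LA Pool.Agent.U593.SV Pool.Agent.U593.UA Relation
open Pool.Agent.TH705.LB (Ltr Mat card_mat listOf mem_listOf)
open Pool.Agent.Results.MP_0036f5_lc.SelfVerifying (SelfVer)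

variable {m : ℕ} {strict : Prop}

theorem end_iff {n : ℕ} {c : Cfg (witU m)} :
    (c.pos = n + 2 ∧ c.state ∈ (witU m).F ∪ rejU m) ↔ End n c := by
  constructor
  · rintro ⟨h1, h2 | h2⟩
    · exact ⟨h1, true, h2⟩
    · exact ⟨h1, false, h2⟩
  · rintro ⟨h1, b, h2⟩
    refine ⟨h1, ?_⟩
    cases b
    · exact Or.inr h2
    · exact Or.inl h2

theorem unamb_witU (hm : 1 ≤ m) : Unamb strict (witU m) ((witU m).F ∪ rejU m) := by
  intro w l l' hl hl'
  have key : ∀ l, Comput strict (witU m) ((witU m).F ∪ rejU m) w l →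
      ∃ l1, l = init (witU m) w :: l1 ∧ Comp strict w.length (init (witU m) w) l1 := by
    intro l hl
    obtain ⟨h1, h2, c, h3, h4, h5⟩ := hl
    rcases l with _ | ⟨a, l1⟩
    · exact absurd h1 (by simp)
    · simp only [List.head?_cons, Option.some.injEq] at h1
      subst h1
      exact ⟨l1, rfl, h2, c, h3, end_iff.1 ⟨h4, h5⟩⟩
  obtain ⟨l1, rfl, h1⟩ := key l hl
  obtain ⟨l2, rfl, h2⟩ := key l' hl'
  rw [uniq_sit hm w (sit_init hm w (fun _ _ => false)) l1 l2 h1 h2]

/-- The end of a computation is unique. -/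
theorem end_unique (hm : 1 ≤ m) {w : List Ltr} {e e' : Cfg (witU m)}
    (h1 : ReflTransGen (Step strict w.length) (init (witU m) w) e) (h2 : End w.length e)
    (h1' : ReflTransGen (Step strict w.length) (init (witU m) w) e') (h2' : End w.length e') :
    e = e' := by
  obtain ⟨l, h3, h4⟩ := chain_of_rtg h1
  obtain ⟨l', h3', h4'⟩ := chain_of_rtg h1'
  have h5 := uniq_sit (strict := strict) hm w (sit_init hm w (fun _ _ => false)) l l'
    ⟨h3, e, h4, h2⟩ ⟨h3', e', h4', h2'⟩
  rw [h5, h4'] at h4
  simpa using h4.symm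

theorem ans_iff (hm : 1 ≤ m) {w : List Ltr} {X : ℕ → ℕ → Bool} {b : Bool}
    (h : Ans m X (.p 0 0) [] w = some b) :
    (w ∈ (witU m).language strict ↔ b = true) ∧ (w ∈ ends strict (witU m) (rejU m) ↔ b = false) := by
  obtain ⟨c, h1, h2, h3⟩ := end_of_ans (strict := strict) hm h
  refine ⟨⟨?_, ?_⟩, ⟨?_, ?_⟩⟩
  · rintro ⟨c', h4, h5, h6⟩
    have h7 : c'.state.1 = .E true := h6
    have := end_unique hm h1 h2 h4 ⟨h5, true, h7⟩
    rw [this, h7] at h3
    exact (Tag.E.inj h3).symm
  · rintro rfl
    exact ⟨c, h1, h2.1, h3⟩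
  · rintro ⟨c', h4, h5, h6⟩
    have h7 : c'.state.1 = .E false := h6
    have := end_unique hm h1 h2 h4 ⟨h5, false, h7⟩
    rw [this, h7] at h3
    exact (Tag.E.inj h3).symm
  · rintro rfl
    exact ⟨c, h1, h2.1, h3⟩

theorem selfVer_witU (hm : 1 ≤ m) : SelfVer strict (witU m) (rejU m) := by
  refine ⟨?_, ?_, ?_⟩
  · rw [Set.disjoint_left]
    intro p h1 h2
    have h3 : p.1 = .E true := h1
    have h4 : p.1 = .E false := h2
    rw [h3] at h4
    exact absurd (Tag.E.inj h4) (by simp)
  · rw [Set.eq_univ_iff_forall]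
    intro w
    obtain ⟨X, b, h⟩ := exists_ans m w
    cases b
    · exact Or.inr ((ans_iff hm h).2.2 rfl)
    · exact Or.inl ((ans_iff hm h).1.2 rfl)
  · rw [Set.disjoint_left]
    intro w h1 h2
    obtain ⟨X, b, h⟩ := exists_ans m w
    have h3 := (ans_iff hm h).1.1 h1
    have h4 := (ans_iff hm h).2.1 h2
    rw [h3] at h4
    exact absurd h4 (by simp)

/-- The evaluation. -/
def es (m : ℕ) (X : ℕ → ℕ → Bool) (e : ES) (v : List Ltr) : ES := v.foldl (stp m X) e

theorem go_fst {X : ℕ → ℕ → Bool} (v : List Ltr) : ∀ {e : ES} {T : List Wk},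
    (go m X e T v).1 = es m X e v := by
  induction v with
  | nil => intro e T; rfl
  | cons l v ih => intro e T; exact ih

theorem es_append (X : ℕ → ℕ → Bool) (e : ES) (v v' : List Ltr) :
    es m X e (v ++ v') = es m X (es m X e v) v' := List.foldl_append

theorem es_cons (X : ℕ → ℕ → Bool) (e : ES) (l : Ltr) (v : List Ltr) :
    es m X e (l :: v) = es m X (stp m X e l) v := rfl

/-- A part of a row. -/
def row (Y : ℕ → ℕ → Bool) (i k j : ℕ) : List Ltr := (List.range' k j).map fun c => .bit (Y i c)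

/-- Comparison of parts of rows. -/
def rowEq (X Y : ℕ → ℕ → Bool) (i k j : ℕ) : Bool := (List.range' k j).all fun c => X i c == Y i c

/-- Rows. -/
def rws (m : ℕ) (Y : ℕ → ℕ → Bool) (i j : ℕ) : List Ltr :=
  (List.range' i j).flatMap fun r => row Y r 0 m ++ [.u]

/-- Comparison of matrices. -/
def matEq (m : ℕ) (X Y : ℕ → ℕ → Bool) (i j : ℕ) : Bool :=
  (List.range' i j).all fun r => rowEq X Y r 0 m

theorem es_row (X Y : ℕ → ℕ → Bool) (x f : Bool) {i : ℕ} (hi : i < m) (j : ℕ) :
    ∀ {st : Bool} {k : ℕ}, k + j = m →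
      es m X (.n x f st i k) (row Y i k j) = .n x f (st && rowEq X Y i k j) i m := by
  induction j with
  | zero =>
    intro st k h
    have : k = m := by omega
    subst this
    simp [row, rowEq, es]
  | succ j ih =>
    intro st k h
    have h1 : row Y i k (j + 1) = .bit (Y i k) :: row Y i (k + 1) j := by
      simp [row, List.range'_succ]
    have h2 : rowEq X Y i k (j + 1) = ((X i k == Y i k) && rowEq X Y i (k + 1) j) := by
      simp [rowEq, List.range'_succ]
    rw [h1, es_cons, h2, ← Bool.and_assoc]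
    have h3 : ¬ (i = m ∨ k = m) := by omega
    simp only [stp, if_neg h3]
    exact ih (by omega)

theorem es_rws (X Y : ℕ → ℕ → Bool) (x f : Bool) (j : ℕ) :
    ∀ {st : Bool} {i : ℕ}, i + j = m →
      es m X (.n x f st i 0) (rws m Y i j) = .n x f (st && matEq m X Y i j) m 0 := by
  induction j with
  | zero =>
    intro st i h
    have : i = m := by omega
    subst this
    simp [rws, matEq, es]
  | succ j ih =>
    intro st i h
    have h1 : rws m Y i (j + 1) = row Y i 0 m ++ .u :: rws m Y (i + 1) j := by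
      simp [rws, List.range'_succ]
    have h2 : matEq m X Y i (j + 1) = (rowEq X Y i 0 m && matEq m X Y (i + 1) j) := by
      simp [matEq, List.range'_succ]
    rw [h1, es_append, es_row X Y x f (by omega) m (by omega), es_cons, h2, ← Bool.and_assoc]
    have h3 : ¬ (i = m ∨ m ≠ m) := by omega
    simp only [stp, if_neg h3]
    exact ih (by omega)

theorem es_rowP (X Y : ℕ → ℕ → Bool) {i : ℕ} (hi : i < m) (j : ℕ) :
    ∀ {k : ℕ}, k + j = m → es m X (.p i k) (row Y i k j) = .p i m := by
  induction j with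
  | zero =>
    intro k h
    have : k = m := by omega
    subst this
    simp [row, es]
  | succ j ih =>
    intro k h
    have h1 : row Y i k (j + 1) = .bit (Y i k) :: row Y i (k + 1) j := by
      simp [row, List.range'_succ]
    rw [h1, es_cons]
    have h3 : ¬ (i = m ∨ k = m) := by omega
    simp only [stp, if_neg h3]
    exact ih (by omega)

theorem es_rwsP (X Y : ℕ → ℕ → Bool) (j : ℕ) :
    ∀ {i : ℕ}, i + j = m → es m X (.p i 0) (rws m Y i j) = .p m 0 := by
  induction j with
  | zero =>
    intro i h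
    have : i = m := by omega
    subst this
    simp [rws, es]
  | succ j ih =>
    intro i h
    have h1 : rws m Y i (j + 1) = row Y i 0 m ++ .u :: rws m Y (i + 1) j := by
      simp [rws, List.range'_succ]
    rw [h1, es_append, es_rowP X Y (by omega) m (by omega), es_cons]
    have h3 : ¬ (i = m ∨ m ≠ m) := by omega
    simp only [stp, if_neg h3]
    exact ih (by omega)

/-- A block. -/
def blk (m : ℕ) (Y : ℕ → ℕ → Bool) : List Ltr := rws m Y 0 m

/-- The first block and the blocks of a list. -/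
def pre (m : ℕ) (L : List (ℕ → ℕ → Bool)) : List Ltr :=
  blk m (fun _ _ => false) ++ .s :: L.flatMap fun Y => blk m Y ++ [.s]

/-- The last block. -/
def suf (m : ℕ) (X : ℕ → ℕ → Bool) : List Ltr := .q :: blk m X

theorem es_list (X : ℕ → ℕ → Bool) (L : List (ℕ → ℕ → Bool)) : ∀ {f : Bool},
    es m X (.n false f true 0 0) (L.flatMap fun Y => blk m Y ++ [.s]) =
      .n false (f || L.any fun Y => matEq m X Y 0 m) true 0 0 := by
  induction L with
  | nil => intro f; simp [es]
  | cons Y L ih =>
    intro f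
    have h1 : (Y :: L).flatMap (fun Y => blk m Y ++ [Ltr.s]) =
        blk m Y ++ .s :: L.flatMap (fun Y => blk m Y ++ [Ltr.s]) := by simp
    have h2 : es m X (.n false f true 0 0) (blk m Y) =
        .n false f (true && matEq m X Y 0 m) m 0 := es_rws X Y false f m (by omega)
    rw [h1, es_append, h2, es_cons]
    simp only [stp, decide_true, Bool.true_and, ih, List.any_cons, Bool.or_assoc]

theorem matEq_iff (X Y : ℕ → ℕ → Bool) :
    matEq m X Y 0 m = true ↔ ∀ i < m, ∀ k < m, X i k = Y i k := by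
  simp only [matEq, rowEq, List.all_eq_true, beq_iff_eq, List.mem_range'_1]
  constructor
  · intro h i hi k hk
    exact h i ⟨by omega, by omega⟩ k ⟨by omega, by omega⟩
  · intro h i hi k hk
    exact h i (by omega) k (by omega)

theorem mem_word (hm : 1 ≤ m) (L : List (ℕ → ℕ → Bool)) (X : ℕ → ℕ → Bool) :
    pre m L ++ suf m X ∈ (witU m).language strict ↔
      ∃ Y ∈ L, ∀ i < m, ∀ k < m, X i k = Y i k := by
  have h1 : es m X (.p 0 0) (pre m L ++ suf m X) =
      .n true (L.any fun Y => matEq m X Y 0 m) true m 0 := by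
    have e1 : pre m L ++ suf m X = blk m (fun _ _ => false) ++
        .s :: ((L.flatMap fun Y => blk m Y ++ [.s]) ++ .q :: blk m X) := by
      simp [pre, suf]
    have e2 : es m X (.p 0 0) (blk m (fun _ _ => false)) = .p m 0 := es_rwsP X _ m (by omega)
    rw [e1, es_append, e2, es_cons]
    simp only [stp, if_true]
    rw [es_append, es_list, es_cons]
    simp only [stp]
    have e3 := es_rws X X true
      ((false || L.any fun Y => matEq m X Y 0 m) || (decide (0 = m) && true)) m (st := true)
      (i := 0) (m := m) (by omega)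
    have e4 : matEq m X X 0 m = true := (matEq_iff X X).2 fun _ _ _ _ => rfl
    rw [e4] at e3
    have e5 : decide (0 = m) = false := decide_eq_false (by omega)
    rw [e5] at e3 ⊢
    simp only [Bool.false_or, Bool.false_and, Bool.or_false, Bool.and_true] at e3 ⊢
    exact e3
  have h2 : Ans m X (.p 0 0) [] (pre m L ++ suf m X) =
      some (L.any fun Y => matEq m X Y 0 m) := by
    unfold Ans
    rw [go_fst, h1]
    simp only [ans, if_true]
  rw [(ans_iff hm h2).1, List.any_eq_true]
  constructor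
  · rintro ⟨Y, h3, h4⟩
    exact ⟨Y, h3, (matEq_iff X Y).1 h4⟩
  · rintro ⟨Y, h3, h4⟩
    exact ⟨Y, h3, (matEq_iff X Y).2 h4⟩

/-- A matrix as a function on the natural numbers. -/
def ex (Y : Mat m) (i k : ℕ) : Bool := if h : i < m ∧ k < m then Y ⟨i, h.1⟩ ⟨k, h.2⟩ else false

theorem ex_inj {X Y : Mat m} (h : ∀ i < m, ∀ k < m, ex X i k = ex Y i k) : X = Y := by
  funext i k
  have := h i.1 i.2 k.1 k.2
  simp only [ex, dif_pos (show i.1 < m ∧ k.1 < m from ⟨i.2, k.2⟩)] at this
  exact this

theorem mem_set (hm : 1 ≤ m) (G : Set (Mat m)) (X : Mat m) :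
    pre m ((listOf G).map ex) ++ suf m (ex X) ∈ (witU m).language strict ↔ X ∈ G := by
  rw [mem_word hm]
  constructor
  · rintro ⟨Y, h1, h2⟩
    obtain ⟨Z, h3, rfl⟩ := List.mem_map.1 h1
    rw [ex_inj h2]
    exact (mem_listOf G Z).1 h3
  · intro h
    exact ⟨ex X, List.mem_map.2 ⟨X, (mem_listOf G X).2 h, rfl⟩, fun _ _ _ _ => rfl⟩

/-- Every deterministic machine equivalent to the witness has many states. -/
theorem lowerQ (hm : 1 ≤ m) (M : LimAut Ltr) (hd : M.Deterministic)
    (hM : M.language strict = (witU m).language strict) :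
    2 ^ (m ^ 2) ≤ Nat.card M.Q * Nat.card M.Q + Nat.card M.Q := by
  rw [← card_mat m]
  refine card_le_of_distinguished (strict := strict) hd (T := Mat m)
    (fun G => pre m ((listOf G).map ex)) ?_
  intro G G' hne
  obtain ⟨X, hX⟩ : ∃ X, ¬ (X ∈ G ↔ X ∈ G') := by
    by_contra h
    push Not at h
    exact hne (Set.ext h)
  refine ⟨suf m (ex X), ?_⟩
  rw [hM, mem_set hm, mem_set hm]
  exact hX

/-- Every deterministic machine equivalent to the witness is large. -/
theorem lower (hm : 1 ≤ m) (M : LimAut Ltr) (hd : M.Deterministic)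
    (hM : M.language strict = (witU m).language strict) : 2 ^ (m ^ 2) ≤ M.size ^ 2 := by
  have h1 := lowerQ hm M hd hM
  have h3 : Nat.card M.Q + 3 ≤ M.size := by
    unfold LimAut.size
    omega
  have h4 : (Nat.card M.Q + 3) ^ 2 ≤ M.size ^ 2 := Nat.pow_le_pow_left h3 2
  nlinarith

end Pool.Agent.U593.UL
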